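import Pool.Agent.L5helper7.DS.Mom
import Pool.Agent.Helper868.DHJ

/-!
# Dense subsets of permutation-invariant sets of words contain all rearrangement patterns

Let `w₀` be a word of length `N` and `w i = w₀ ∘ σ i` rearrangements of it, `i < k`. Let `O` be a set of words of length
`n`, invariant under permutations of the places, in which all letters of `w₀` occur at least `ε n` times. Every subset
of `O` of density `δ` contains `k` words `U i` which agree except at some aligned windows of `N` consecutive places; at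
each of these windows (there is at least one) `U i` is `w i`.
-/

set_option autoImplicit false

namespace Pool.Agent.L5helper7.DS

open Finset Equiv
open Pool.Agent.Helper868.DHJ (LineFree pt ind av av_eq_sum av_equiv av_glue glue ind_mem ind_nonneg
  exists_le_of_le_av density_hales_jewett)

/-- the blocks of `R` places -/
def emb {n L R : ℕ} (h : L * R ≤ n) : Fin L × Fin R ↪ Fin n where
  toFun q := ⟨q.1 * R + q.2, by
    have h1 := q.1.2
    have h2 := q.2.2
    calc (q.1 : ℕ) * R + q.2 < q.1 * R + R := by omega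
      _ = (q.1 + 1) * R := by ring
      _ ≤ L * R := Nat.mul_le_mul_right _ h1
      _ ≤ n := h⟩
  inj' := by
    rintro ⟨j, r⟩ ⟨j', r'⟩ hq
    have hq' : (j : ℕ) * R + r = j' * R + r' := congrArg Fin.val hq
    have hR : 0 < R := lt_of_le_of_lt (Nat.zero_le _) r.2
    have e1 : ((j : ℕ) * R + r) % R = r := by rw [Nat.mul_add_mod_self_right, Nat.mod_eq_of_lt r.2]
    have e2 : ((j' : ℕ) * R + r') % R = r' := by rw [Nat.mul_add_mod_self_right, Nat.mod_eq_of_lt r'.2]
    have e3 : (r : ℕ) = r' := by rw [← e1, ← e2, hq']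
    have e4 : (j : ℕ) * R = j' * R := by omega
    have e5 : (j : ℕ) = j' := Nat.eq_of_mul_eq_mul_right hR e4
    exact Prod.ext (Fin.ext e5) (Fin.ext e3)

theorem emb_val {n L R : ℕ} (h : L * R ≤ n) (q : Fin L × Fin R) : ((emb h q : Fin n) : ℕ) = q.1 * R + q.2 := rfl

/-- permutations inside the blocks -/
def act {L R : ℕ} (τ : Fin L → Perm (Fin R)) : Perm (Fin L × Fin R) where
  toFun q := (q.1, τ q.1 q.2)
  invFun q := (q.1, (τ q.1).symm q.2)
  left_inv q := by simp
  right_inv q := by simp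

/-- the word with permuted blocks -/
noncomputable def W {n L R : ℕ} {α : Type} (h : L * R ≤ n) (u : Fin n → α) (τ : Fin L → Perm (Fin R)) : Fin n → α :=
  fun i => u ((act τ).viaEmbedding (emb h) i)

section

variable {n L R : ℕ} {α : Type} (h : L * R ≤ n)

theorem W_emb (u : Fin n → α) (τ : Fin L → Perm (Fin R)) (q : Fin L × Fin R) :
    W h u τ (emb h q) = u (emb h (q.1, τ q.1 q.2)) := by
  unfold W
  rw [Equiv.Perm.viaEmbedding_apply]
  rfl

theorem W_off (u : Fin n → α) (τ : Fin L → Perm (Fin R)) {i : Fin n} (hi : i ∉ Set.range (emb h)) :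
    W h u τ i = u i := by
  unfold W
  rw [Equiv.Perm.viaEmbedding_apply_of_notMem _ _ _ hi]

theorem W_W (u : Fin n → α) (κ τ : Fin L → Perm (Fin R)) : W h (W h u κ) τ = W h u (fun j => κ j * τ j) := by
  funext i
  by_cases hi : i ∈ Set.range (emb h)
  · obtain ⟨q, rfl⟩ := hi
    rw [W_emb, W_emb, W_emb]
    rfl
  · rw [W_off h _ _ hi, W_off h _ _ hi, W_off h _ _ hi]

theorem W_mem [DecidableEq α] {O : Finset (Fin n → α)} (hO : Inv O) {u : Fin n → α} (hu : u ∈ O)
    (τ : Fin L → Perm (Fin R)) : W h u τ ∈ O := hO _ u hu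

/-- the number of the places of block `j` with the letter `v` -/
def cb [DecidableEq α] (u : Fin n → α) (j : Fin L) (v : α) : ℕ := (univ.filter (fun r : Fin R => u (emb h (j, r)) = v)).card

theorem cb_W [DecidableEq α] (u : Fin n → α) (τ : Fin L → Perm (Fin R)) (j : Fin L) (v : α) :
    cb h (W h u τ) j v = cb h u j v := by
  unfold cb
  simp only [W_emb]
  rw [← card_map (τ j).toEmbedding]
  congr 1
  ext r
  rw [mem_map]
  constructor
  · rintro ⟨s, hs, rfl⟩
    rw [mem_filter] at hs ⊢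
    exact ⟨mem_univ _, hs.2⟩
  · intro hr
    rw [mem_filter] at hr
    refine ⟨(τ j).symm r, ?_, by simp⟩
    rw [mem_filter]
    refine ⟨mem_univ _, ?_⟩
    rw [Equiv.apply_symm_apply]
    exact hr.2

/-- the block as a set of places -/
def bl (j : Fin L) : Finset (Fin n) := univ.map ⟨fun r : Fin R => emb h (j, r), fun r s hrs => by
  have := (emb h).injective hrs
  exact (Prod.mk.injEq _ _ _ _ ▸ this).2⟩

theorem bl_card (j : Fin L) : (bl h j).card = R := by
  unfold bl
  rw [card_map, card_univ, Fintype.card_fin]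

theorem cb_eq [DecidableEq α] (u : Fin n → α) (j : Fin L) (v : α) :
    cb h u j v = ((bl h j).filter (fun i => u i = v)).card := by
  unfold cb bl
  rw [filter_map, card_map]
  rfl

end

/-- arranging a word -/
theorem arrange {R N : ℕ} {α : Type} [DecidableEq α] (g : Fin R → α) (w : Fin N → α)
    (hw : ∀ k, N ≤ (univ.filter (fun r => g r = w k)).card) : ∃ hNR : N ≤ R, ∃ κ : Perm (Fin R),
      ∀ k : Fin N, g (κ (Fin.castLE hNR k)) = w k := by
  classical
  have hemb : ∀ k₀ : Fin N, Nonempty ({k // w k = w k₀} ↪ {c : Fin R // g c = w k₀}) := by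
    intro k₀
    rw [Function.Embedding.nonempty_iff_card_le, Fintype.card_subtype, Fintype.card_subtype]
    refine le_trans ?_ (hw k₀)
    refine (card_le_univ _).trans ?_
    rw [Fintype.card_fin]
  have hemb2 : ∀ v : α, (∃ k₀, w k₀ = v) → Nonempty ({k // w k = v} ↪ {c : Fin R // g c = v}) := by
    rintro v ⟨k₀, rfl⟩
    exact hemb k₀
  let ev : ∀ (v : α) (hv : ∃ k₀, w k₀ = v), {k // w k = v} ↪ {c : Fin R // g c = v} := fun v hv => (hemb2 v hv).some
  let e₀ : Fin N → Fin R := fun k => (ev (w k) ⟨k, rfl⟩ ⟨k, rfl⟩ : Fin R)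
  have he₀ : ∀ (k : Fin N) (v : α) (hv : ∃ k₀, w k₀ = v) (hk : w k = v), e₀ k = (ev v hv ⟨k, hk⟩ : Fin R) := by
    intro k v hv hk
    subst hk
    rfl
  have hue : ∀ k, g (e₀ k) = w k := fun k => (ev (w k) ⟨k, rfl⟩ ⟨k, rfl⟩).2
  have hinj : Function.Injective e₀ := by
    intro i j hij
    have h1 : w i = w j := by rw [← hue i, ← hue j, hij]
    have h2 := he₀ i (w j) ⟨j, rfl⟩ h1
    have h3 := he₀ j (w j) ⟨j, rfl⟩ rfl
    rw [h2, h3] at hij
    have h4 := (ev (w j) ⟨j, rfl⟩).injective (Subtype.ext hij)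
    exact congrArg Subtype.val h4
  have hNR : N ≤ R := by
    have := Fintype.card_le_of_injective e₀ hinj
    rwa [Fintype.card_fin, Fintype.card_fin] at this
  let a : Fin N ↪ Fin R := Fin.castLEEmb hNR
  let eq : {i // i ∈ Set.range a} ≃ {i // i ∈ Set.range e₀} :=
    (Equiv.ofInjective a a.injective).symm.trans (Equiv.ofInjective e₀ hinj)
  refine ⟨hNR, eq.extendSubtype, fun k => ?_⟩
  have h1 : eq.extendSubtype (a k) = eq ⟨a k, ⟨k, rfl⟩⟩ := Equiv.extendSubtype_apply_of_mem _ _ _
  have h2 : (Equiv.ofInjective a a.injective).symm ⟨a k, ⟨k, rfl⟩⟩ = k := by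
    rw [Equiv.symm_apply_eq]
    rfl
  have h3 : eq.extendSubtype (Fin.castLE hNR k) = e₀ k := by
    refine h1.trans ?_
    simp only [eq, Equiv.trans_apply]
    rw [h2]
    rfl
  rw [h3, hue]

open Classical in
/-- **Rearrangement patterns in dense subsets of invariant sets.** -/
theorem patterns {α : Type} [DecidableEq α] {N k : ℕ} (hk : 1 ≤ k) (w₀ : Fin N → α) (σ : Fin k → Perm (Fin N))
    (V : Finset α) (hV : ∀ r, w₀ r ∈ V) {ε δ : ℝ} (hε : 0 < ε) (hδ : 0 < δ) :
    ∃ (R L : ℕ) (hNR : N ≤ R), ∀ (n : ℕ) (hn : L * R ≤ n) (O A : Finset (Fin n → α)), Inv O →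
      (∀ u ∈ O, ∀ v ∈ V, ε * n ≤ cnt u v) → A ⊆ O → δ * O.card < A.card →
      ∃ (J : Finset (Fin L)) (U : Fin k → Fin n → α), J.Nonempty ∧ (∀ i, U i ∈ A) ∧
        (∀ i, ∀ j ∈ J, ∀ r : Fin N, U i (emb hn (j, Fin.castLE hNR r)) = w₀ (σ i r)) ∧
        ∀ i i' x, (∀ j ∈ J, ∀ r : Fin N, x ≠ emb hn (j, Fin.castLE hNR r)) → U i x = U i' x := by
  obtain ⟨R, hNR, hR1, hR2, hR3⟩ : ∃ R : ℕ, N ≤ R ∧ 1 ≤ R ∧ 2 * (N : ℝ) ≤ ε * R ∧
      16 * ((V.card : ℝ) + 1) ≤ ε ^ 2 * δ * R := by
    obtain ⟨a, ha⟩ := exists_nat_ge (2 * (N : ℝ) / ε)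
    obtain ⟨c, hc⟩ := exists_nat_ge (16 * ((V.card : ℝ) + 1) / (ε ^ 2 * δ))
    rw [div_le_iff₀ hε] at ha
    rw [div_le_iff₀ (by positivity)] at hc
    refine ⟨N + a + c + 1, by omega, by omega, ?_, ?_⟩
    · push_cast
      nlinarith [mul_nonneg hε.le (Nat.cast_nonneg (α := ℝ) N), mul_nonneg hε.le (Nat.cast_nonneg (α := ℝ) c)]
    · push_cast
      have h1 : 0 < ε ^ 2 * δ := by positivity
      nlinarith [mul_nonneg h1.le (Nat.cast_nonneg (α := ℝ) N), mul_nonneg h1.le (Nat.cast_nonneg (α := ℝ) a)]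
  obtain ⟨M, hM⟩ := density_hales_jewett (Perm (Fin R)) (δ / 2) (by positivity)
  refine ⟨R, 2 * (M + 1), hNR, ?_⟩
  obtain ⟨L, hL⟩ : ∃ L, L = 2 * (M + 1) := ⟨_, rfl⟩
  rw [← hL]
  intro n hn O A hO hOV hAO hA
  -- rich blocks
  let rich : (Fin n → α) → Fin L → Prop := fun u j => ∀ v ∈ V, N ≤ cb hn u j v
  have rich_W : ∀ u τ j, rich (W hn u τ) j ↔ rich u j := by
    intro u τ j
    simp only [rich, cb_W]
  let poor : (Fin n → α) → ℕ := fun u => (univ.filter (fun j : Fin L => ¬ rich u j)).card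
  have hpoor_sum : ∑ u ∈ O, poor u ≤ ∑ j : Fin L, ∑ v ∈ V, (O.filter (fun u => cb hn u j v < N)).card := by
    have h1 : ∀ u ∈ O, poor u ≤ ∑ j : Fin L, ∑ v ∈ V, (if cb hn u j v < N then 1 else 0) := by
      intro u _
      simp only [poor]
      rw [card_filter]
      refine sum_le_sum fun j _ => ?_
      split_ifs with hj
      · exact Nat.zero_le _
      · simp only [rich] at hj
        push Not at hj
        obtain ⟨v, hv, hlt⟩ := hj
        calc 1 = (if cb hn u j v < N then 1 else 0) := by rw [if_pos hlt]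
          _ ≤ _ := single_le_sum (f := fun v => if cb hn u j v < N then 1 else 0) (fun _ _ => Nat.zero_le _) hv
    refine (sum_le_sum h1).trans (le_of_eq ?_)
    rw [sum_comm]
    refine sum_congr rfl fun j _ => ?_
    rw [sum_comm]
    refine sum_congr rfl fun v _ => ?_
    rw [card_filter]
  have hdev : ∀ (j : Fin L), ∀ v ∈ V, ε ^ 2 * R * ((O.filter (fun u => cb hn u j v < N)).card : ℝ) ≤ 4 * O.card := by
    intro j v hv
    have h1 := deviate hO v (bl hn j) hε (N := N) (fun u hu => hOV u hu v hv) (by rw [bl_card]; exact hR1)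
      (by rw [bl_card]; exact hR2)
    rw [bl_card] at h1
    have h2 : O.filter (fun u => cb hn u j v < N) =
        O.filter (fun u => ((bl hn j).filter (fun i => u i = v)).card < N) := by
      refine filter_congr fun u _ => ?_
      rw [cb_eq]
    rw [h2]
    exact h1
  have hpoor : ε ^ 2 * R * ∑ u ∈ O, (poor u : ℝ) ≤ L * (V.card * (4 * O.card)) := by
    have h1 : ∑ u ∈ O, (poor u : ℝ) ≤ ∑ j : Fin L, ∑ v ∈ V, ((O.filter (fun u => cb hn u j v < N)).card : ℝ) := by
      exact_mod_cast hpoor_sum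
    calc ε ^ 2 * R * ∑ u ∈ O, (poor u : ℝ) ≤
        ε ^ 2 * R * ∑ j : Fin L, ∑ v ∈ V, ((O.filter (fun u => cb hn u j v < N)).card : ℝ) :=
          mul_le_mul_of_nonneg_left h1 (by positivity)
      _ = ∑ j : Fin L, ∑ v ∈ V, ε ^ 2 * R * ((O.filter (fun u => cb hn u j v < N)).card : ℝ) := by
          rw [mul_sum]
          refine sum_congr rfl fun j _ => ?_
          rw [mul_sum]
      _ ≤ ∑ j : Fin L, ∑ v ∈ V, 4 * (O.card : ℝ) := sum_le_sum fun j _ => sum_le_sum fun v hv => hdev j v hv
      _ = _ := by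
          rw [sum_const, sum_const, card_univ, Fintype.card_fin, nsmul_eq_mul, nsmul_eq_mul]
  set Bad := O.filter (fun u => L ≤ 2 * poor u) with hBad
  have hBadc : (Bad.card : ℝ) * L ≤ 2 * ∑ u ∈ O, (poor u : ℝ) := by
    calc (Bad.card : ℝ) * L = ∑ _u ∈ Bad, (L : ℝ) := by rw [sum_const, nsmul_eq_mul]
      _ ≤ ∑ u ∈ Bad, 2 * (poor u : ℝ) := sum_le_sum fun u hu => by
          rw [hBad, mem_filter] at hu
          exact_mod_cast hu.2
      _ ≤ ∑ u ∈ O, 2 * (poor u : ℝ) := sum_le_sum_of_subset_of_nonneg (filter_subset _ _)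
          (fun u _ _ => by positivity)
      _ = _ := by rw [mul_sum]
  have hL0 : (0 : ℝ) < L := by
    have : 0 < L := by omega
    exact_mod_cast this
  have hBad2 : (Bad.card : ℝ) ≤ δ / 2 * O.card := by
    have hX : (0 : ℝ) < ε ^ 2 * R * L := by
      have : (0 : ℝ) < R := by exact_mod_cast hR1
      positivity
    have h1 : ε ^ 2 * R * L * Bad.card ≤ ε ^ 2 * R * L * (δ / 2 * O.card) := by
      calc ε ^ 2 * R * L * Bad.card = ε ^ 2 * R * (Bad.card * L) := by ring
        _ ≤ ε ^ 2 * R * (2 * ∑ u ∈ O, (poor u : ℝ)) := mul_le_mul_of_nonneg_left hBadc (by positivity)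
        _ = 2 * (ε ^ 2 * R * ∑ u ∈ O, (poor u : ℝ)) := by ring
        _ ≤ 2 * (L * (V.card * (4 * O.card))) := by linarith
        _ = L * O.card * (8 * V.card) := by ring
        _ ≤ L * O.card * (ε ^ 2 * δ * R / 2) := by
            apply mul_le_mul_of_nonneg_left _ (by positivity)
            linarith
        _ = _ := by ring
    exact le_of_mul_le_mul_left h1 hX
  set A' := A \ Bad with hA'
  have hA'c : δ / 2 * O.card < A'.card := by
    have h1 : A.card ≤ A'.card + Bad.card := card_le_card_sdiff_add_card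
    have h2 : (A.card : ℝ) ≤ A'.card + Bad.card := by exact_mod_cast h1
    linarith
  have hOne : (0 : ℝ) < O.card := by
    by_contra hcon
    have h1 : (O.card : ℝ) = 0 := le_antisymm (not_lt.1 hcon) (Nat.cast_nonneg _)
    have h2 : (A.card : ℝ) ≤ O.card := by exact_mod_cast card_le_card hAO
    rw [h1] at hA h2
    linarith
  -- averaging over `O`
  obtain ⟨u, hu, hud⟩ : ∃ u ∈ O, δ / 2 ≤ av (fun τ : Fin L → Perm (Fin R) => ind (A' : Set (Fin n → α)) (W hn u τ)) := by
    by_contra hcon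
    push Not at hcon
    have h1 : ∑ u ∈ O, av (fun τ : Fin L → Perm (Fin R) => ind (A' : Set (Fin n → α)) (W hn u τ)) ≤
        ∑ _u ∈ O, δ / 2 := sum_le_sum fun u hu => (hcon u hu).le
    have h2 : ∑ u ∈ O, av (fun τ : Fin L → Perm (Fin R) => ind (A' : Set (Fin n → α)) (W hn u τ)) = A'.card := by
      have h3 : ∀ τ : Fin L → Perm (Fin R), ∑ u ∈ O, ind (A' : Set (Fin n → α)) (W hn u τ) = A'.card := by
        intro τ
        have h4 : ∑ u ∈ O, ind (A' : Set (Fin n → α)) (W hn u τ) = ∑ u ∈ O, ind (A' : Set (Fin n → α)) u :=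
          sum_comp hO ((act τ).viaEmbedding (emb hn)) (ind (A' : Set (Fin n → α)))
        rw [h4]
        have h5 : ∀ u ∈ O, ind (A' : Set (Fin n → α)) u = if u ∈ A' then 1 else 0 := by
          intro u _
          unfold ind
          simp only [mem_coe]
        rw [sum_congr rfl h5, sum_ite_mem, sum_const, nsmul_eq_mul, mul_one,
          inter_eq_right.2 (sdiff_subset.trans hAO)]
      rw [← Pool.Agent.Helper868.DHJ.av_sum]
      rw [av_eq_sum, sum_congr rfl (fun τ _ => h3 τ), sum_const, nsmul_eq_mul, card_univ]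
      have : (Fintype.card (Fin L → Perm (Fin R)) : ℝ) ≠ 0 := by
        exact_mod_cast Fintype.card_ne_zero
      field_simp
    rw [h2, sum_const, nsmul_eq_mul] at h1
    linarith
  -- `u` has many rich blocks
  have hrichu : M + 1 ≤ (univ.filter (fun j : Fin L => rich u j)).card := by
    obtain ⟨τ, hτ⟩ := exists_le_of_le_av hud
    have h1 : W hn u τ ∈ A' := by
      have h2 : 0 < ind (A' : Set (Fin n → α)) (W hn u τ) := lt_of_lt_of_le (by positivity) hτ
      exact mem_coe.1 (Pool.Agent.Helper868.DHJ.mem_of_ind_pos h2)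
    rw [hA', mem_sdiff] at h1
    have h3 : ¬ L ≤ 2 * poor (W hn u τ) := fun hcon => h1.2 (by
      rw [hBad, mem_filter]
      exact ⟨hAO h1.1, hcon⟩)
    have h4 : poor (W hn u τ) = poor u := by
      simp only [poor]
      congr 1
      refine filter_congr fun j _ => ?_
      rw [rich_W]
    have h5 := card_filter_add_card_filter_not (s := (univ : Finset (Fin L))) (fun j => rich u j)
    rw [card_univ, Fintype.card_fin] at h5
    rw [h4] at h3
    simp only [poor] at h3
    omega
  -- canonical arrangement of the rich blocks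
  have harr : ∀ j, ∃ κ : Perm (Fin R), rich u j → ∀ r : Fin N, u (emb hn (j, κ (Fin.castLE hNR r))) = w₀ r := by
    intro j
    by_cases hj : rich u j
    · obtain ⟨h1, κ, h2⟩ := arrange (fun r => u (emb hn (j, r))) w₀ (fun r => hj _ (hV r))
      exact ⟨κ, fun _ => h2⟩
    · exact ⟨1, fun h => absurd h hj⟩
  choose κ hκ using harr
  set uc := W hn u κ with huc
  have hucr : ∀ j, rich u j → ∀ r : Fin N, uc (emb hn (j, Fin.castLE hNR r)) = w₀ r := by
    intro j hj r
    rw [huc, W_emb]
    exact hκ j hj r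
  have hud2 : δ / 2 ≤ av (fun τ : Fin L → Perm (Fin R) => ind (A' : Set (Fin n → α)) (W hn uc τ)) := by
    refine hud.trans (le_of_eq ?_)
    let e : (Fin L → Perm (Fin R)) ≃ (Fin L → Perm (Fin R)) := Equiv.piCongrRight (fun j => Equiv.mulLeft (κ j))
    rw [← av_equiv e (fun τ : Fin L → Perm (Fin R) => ind (A' : Set (Fin n → α)) (W hn u τ))]
    congr 1
    funext τ
    rw [huc, W_W]
    rfl
  rw [av_glue (fun j => rich u j)] at hud2
  obtain ⟨ρ, hρ⟩ := exists_le_of_le_av hud2
  have hline : ¬ LineFree {t : {j // rich u j} → Perm (Fin R) | W hn uc (glue (fun j => rich u j) t ρ) ∈ A'} := by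
    intro hlf
    have h1 := hM {j // rich u j} (by
      rw [Fintype.card_subtype]
      omega) _ hlf
    have h2 : Pool.Agent.Helper868.DHJ.dens {t : {j // rich u j} → Perm (Fin R) | W hn uc (glue (fun j => rich u j) t ρ) ∈ A'} =
        av (fun t : {j // rich u j} → Perm (Fin R) =>
          ind (A' : Set (Fin n → α)) (W hn uc (glue (fun j => rich u j) t ρ))) := by
      unfold Pool.Agent.Helper868.DHJ.dens
      congr 1
    rw [h2] at h1
    linarith
  unfold LineFree at hline
  push Not at hline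
  obtain ⟨s, ⟨i₀, hi₀⟩, hs⟩ := hline
  -- the permutations of a block
  let a : Fin N ↪ Fin R := Fin.castLEEmb hNR
  let bb : Fin k → Perm (Fin R) := fun i => (σ i).viaEmbedding a
  have hbb : ∀ i r, bb i (Fin.castLE hNR r) = Fin.castLE hNR (σ i r) := fun i r =>
    Equiv.Perm.viaEmbedding_apply _ a r
  have hbb2 : ∀ i r, (∀ r' : Fin N, r ≠ Fin.castLE hNR r') → bb i r = r := by
    intro i r hr
    apply Equiv.Perm.viaEmbedding_apply_of_notMem
    rintro ⟨r', hr'⟩
    exact hr r' hr'.symm
  refine ⟨univ.filter (fun j => ∃ hj : rich u j, s ⟨j, hj⟩ = none),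
    fun i => W hn uc (glue (fun j => rich u j) (pt s (bb i)) ρ), ?_, ?_, ?_, ?_⟩
  · exact ⟨i₀.1, by rw [mem_filter]; exact ⟨mem_univ _, i₀.2, hi₀⟩⟩
  · intro i
    have := hs (bb i)
    rw [Set.mem_ofPred_eq, hA', mem_sdiff] at this
    exact this.1
  · intro i j hj r
    rw [mem_filter] at hj
    obtain ⟨-, hj1, hj2⟩ := hj
    dsimp only
    rw [W_emb]
    have h1 : glue (fun j => rich u j) (pt s (bb i)) ρ j = bb i := by
      unfold glue
      rw [dif_pos hj1]
      unfold pt
      rw [hj2]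
      rfl
    simp only [h1, hbb]
    exact hucr j hj1 _
  · intro i i' x hx
    by_cases hxr : x ∈ Set.range (emb hn)
    · obtain ⟨⟨j, r⟩, rfl⟩ := hxr
      dsimp only
      rw [W_emb, W_emb]
      simp only
      by_cases hj1 : rich u j
      · by_cases hj2 : s ⟨j, hj1⟩ = none
        · have h1 : ∀ i, glue (fun j => rich u j) (pt s (bb i)) ρ j = bb i := by
            intro i
            unfold glue
            rw [dif_pos hj1]
            unfold pt
            rw [hj2]
            rfl
          have h2 : ∀ r' : Fin N, r ≠ Fin.castLE hNR r' := by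
            rintro r' rfl
            exact hx j (by rw [mem_filter]; exact ⟨mem_univ _, hj1, hj2⟩) r' rfl
          rw [h1, h1, hbb2 i r h2, hbb2 i' r h2]
        · have h1 : glue (fun j => rich u j) (pt s (bb i)) ρ j = glue (fun j => rich u j) (pt s (bb i')) ρ j := by
            unfold glue
            rw [dif_pos hj1, dif_pos hj1]
            unfold pt
            obtain ⟨c, hc⟩ := Option.ne_none_iff_exists'.1 hj2
            rw [hc]
            rfl
          rw [h1]
      · have h1 : glue (fun j => rich u j) (pt s (bb i)) ρ j = glue (fun j => rich u j) (pt s (bb i')) ρ j := by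
          unfold glue
          rw [dif_neg hj1, dif_neg hj1]
        rw [h1]
    · dsimp only
      rw [W_off hn _ _ hxr, W_off hn _ _ hxr]

end Pool.Agent.L5helper7.DS
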