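import Mathlib

/-!
# Digit sets of more than half of the digits: potentials for the carry graph of `x + z = 2 y`

`D` is a set of at least `b / 2 + 1` digits in base `b`. The transitions `(x, y, z, e, e')`, `x, y, z ∈ D`,
`e, e' ∈ {-1, 0, 1}`, `x + z + e = 2 y + b e'`, are the steps of the computation of `x + z - 2 y`. Every
potential `(f₁, f₂, g)` with `f₁ x + f₂ z + g e ≤ f₁ y + f₂ y + g e'` for all transitions has `g` constant.
-/

set_option autoImplicit false

namespace Pool.Agent.L5helper7.DS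

open Finset

/-- the reflection modulo `b`: `x + refl x + e` is `2 y` up to `b` times `-1`, `0` or `1` -/
def refl (b y e x : ℤ) : ℤ :=
  if 2 * y - e - x < 0 then 2 * y - e - x + b else if 2 * y - e - x < b then 2 * y - e - x else 2 * y - e - x - b

theorem refl_range {b y e x : ℤ} (hy : 0 ≤ y) (hyb : y < b) (he : e = -1 ∨ e = 0 ∨ e = 1) (hx : 0 ≤ x)
    (hxb : x < b) : 0 ≤ refl b y e x ∧ refl b y e x < b := by
  unfold refl
  split_ifs <;> rcases he with rfl | rfl | rfl <;> constructor <;> omega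

theorem refl_refl {b y e x : ℤ} (hy : 0 ≤ y) (hyb : y < b) (he : e = -1 ∨ e = 0 ∨ e = 1) (hx : 0 ≤ x)
    (hxb : x < b) : refl b y e (refl b y e x) = x := by
  unfold refl
  split_ifs <;> rcases he with rfl | rfl | rfl <;> omega

theorem refl_spec (b y e x : ℤ) : ∃ e' : ℤ, (e' = -1 ∨ e' = 0 ∨ e' = 1) ∧ x + refl b y e x + e = 2 * y + b * e' := by
  unfold refl
  split_ifs with h1 h2
  · exact ⟨1, by omega, by ring⟩
  · exact ⟨0, by omega, by ring⟩
  · exact ⟨-1, by omega, by ring⟩

/-- the digits of `D` with reflection in `D` -/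
def XX (b : ℤ) (D : Finset ℤ) (y e : ℤ) : Finset ℤ := D.filter (fun x => refl b y e x ∈ D)

theorem count {b : ℤ} {D : Finset ℤ} (hD : D ⊆ Ico 0 b) {y e : ℤ} (hy : 0 ≤ y) (hyb : y < b)
    (he : e = -1 ∨ e = 0 ∨ e = 1) :
    (((Ico 0 b).filter (fun x => x ∉ D ∧ refl b y e x ∉ D)).card : ℤ) + 2 * D.card = b + (XX b D y e).card := by
  classical
  have hr : ∀ x ∈ Ico 0 b, refl b y e x ∈ Ico 0 b := fun x hx => by
    rw [mem_Ico] at hx ⊢
    exact refl_range hy hyb he hx.1 hx.2
  have hrr : ∀ x ∈ Ico 0 b, refl b y e (refl b y e x) = x := fun x hx => by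
    rw [mem_Ico] at hx
    exact refl_refl hy hyb he hx.1 hx.2
  set D' : Finset ℤ := D.image (refl b y e) with hD'
  have h1 : D'.card = D.card := by
    rw [hD', card_image_of_injOn]
    intro u hu v hv huv
    have h0 := congrArg (refl b y e) huv
    rwa [hrr u (hD hu), hrr v (hD hv)] at h0
  have hmem : ∀ x ∈ Ico 0 b, x ∈ D' ↔ refl b y e x ∈ D := by
    intro x hx
    rw [hD', mem_image]
    constructor
    · rintro ⟨a, ha, rfl⟩
      rw [hrr a (hD ha)]
      exact ha
    · intro h
      exact ⟨_, h, hrr x hx⟩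
  have h2 : XX b D y e = D ∩ D' := by
    ext x
    unfold XX
    rw [mem_filter, mem_inter]
    constructor
    · rintro ⟨a, c⟩
      exact ⟨a, (hmem x (hD a)).2 c⟩
    · rintro ⟨a, c⟩
      exact ⟨a, (hmem x (hD a)).1 c⟩
  have hD'R : D' ⊆ Ico 0 b := by
    intro x hx
    rw [hD', mem_image] at hx
    obtain ⟨a, ha, rfl⟩ := hx
    exact hr a (hD ha)
  have h3 : (Ico 0 b).filter (fun x => x ∉ D ∧ refl b y e x ∉ D) = Ico 0 b \ (D ∪ D') := by
    ext x
    rw [mem_filter, mem_sdiff, mem_union, not_or]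
    constructor
    · rintro ⟨a, c, d⟩
      exact ⟨a, c, fun h => d ((hmem x a).1 h)⟩
    · rintro ⟨a, c, d⟩
      exact ⟨a, c, fun h => d ((hmem x a).2 h)⟩
  have h4 := card_union_add_card_inter D D'
  have h5 : (Ico 0 b \ (D ∪ D')).card + (D ∪ D').card = (Ico 0 b).card :=
    card_sdiff_add_card_eq_card (union_subset hD hD'R)
  rw [Int.card_Ico] at h5
  rw [h3, h2]
  have hb : 0 ≤ b := by omega
  have h6 : ((b - 0).toNat : ℤ) = b := by rw [sub_zero, Int.toNat_of_nonneg hb]
  have h7 : ((Ico 0 b \ (D ∪ D')).card : ℤ) + (D ∪ D').card = b := by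
    rw [← h6]
    exact_mod_cast h5
  have h8 : ((D ∪ D').card : ℤ) + (D ∩ D').card = D.card + D.card := by
    rw [h1] at h4
    exact_mod_cast h4
  linarith

/-- the potentials -/
def Feas (b : ℤ) (D : Finset ℤ) (f₁ f₂ g : ℤ → ℚ) : Prop :=
  ∀ x ∈ D, ∀ y ∈ D, ∀ z ∈ D, ∀ e e' : ℤ, (e = -1 ∨ e = 0 ∨ e = 1) → (e' = -1 ∨ e' = 0 ∨ e' = 1) →
    x + z + e = 2 * y + b * e' → f₁ x + f₂ z + g e ≤ f₁ y + f₂ y + g e'

/-- closed sets: the combinatorial core. `M` contains all carries. -/
theorem closed_all {b : ℤ} {D : Finset ℤ} (hb : 2 ≤ b) (hD : D ⊆ Ico 0 b) (hc : b + 2 ≤ 2 * (D.card : ℤ))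
    {F : Finset ℤ} (hF : F ⊆ D) (hFne : F.Nonempty) {M : ℤ → Prop}
    (hM : M (-1) ∨ M 0 ∨ M 1)
    (hcl : ∀ y ∈ F, ∀ e : ℤ, (e = -1 ∨ e = 0 ∨ e = 1) → M e → ∀ x ∈ D, ∀ z ∈ D, ∀ e' : ℤ,
      (e' = -1 ∨ e' = 0 ∨ e' = 1) → x + z + e = 2 * y + b * e' → x ∈ F ∧ z ∈ F ∧ M e') :
    M (-1) ∧ M 0 ∧ M 1 := by
  classical
  have hrange : ∀ y ∈ D, 0 ≤ y ∧ y < b := fun y hy => by simpa using mem_Ico.1 (hD hy)
  -- a point of `XX` gives a transition
  have htr : ∀ y ∈ F, ∀ e : ℤ, (e = -1 ∨ e = 0 ∨ e = 1) → M e → ∀ x ∈ XX b D y e,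
      x ∈ F ∧ refl b y e x ∈ F ∧ ∃ e' : ℤ, (e' = -1 ∨ e' = 0 ∨ e' = 1) ∧ M e' ∧
        x + refl b y e x + e = 2 * y + b * e' := by
    intro y hy e he hMe x hx
    unfold XX at hx
    rw [mem_filter] at hx
    obtain ⟨e', h1, h2⟩ := refl_spec b y e x
    obtain ⟨h3, h4, h5⟩ := hcl y hy e he hMe x hx.1 _ hx.2 e' h1 h2
    exact ⟨h3, h4, e', h1, h5, h2⟩
  have hXc : ∀ y ∈ F, ∀ e : ℤ, (e = -1 ∨ e = 0 ∨ e = 1) → 2 ≤ (XX b D y e).card := by
    intro y hy e he
    have hy1 := hrange y (hF hy)
    have h1 := count hD hy1.1 hy1.2 he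
    have h2 : (0 : ℤ) ≤ ((Ico 0 b).filter (fun x => x ∉ D ∧ refl b y e x ∉ D)).card := Nat.cast_nonneg _
    have h3 : (2 : ℤ) ≤ (XX b D y e).card := by linarith
    exact_mod_cast h3
  obtain ⟨yM, hyM, hmax⟩ := F.exists_max_image id hFne
  obtain ⟨ym, hym, hmin⟩ := F.exists_min_image id hFne
  simp only [id] at hmax hmin
  have two : ∀ y ∈ F, ∀ e : ℤ, (e = -1 ∨ e = 0 ∨ e = 1) → ∀ a : ℤ, ∃ x ∈ XX b D y e, x ≠ a := by
    intro y hy e he a
    by_contra hcon
    push Not at hcon
    have h1 : XX b D y e ⊆ {a} := fun x hx => mem_singleton.2 (hcon x hx)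
    have h2 := card_le_card h1
    rw [card_singleton] at h2
    have := hXc y hy e he
    omega
  by_cases h0 : M 0
  · refine ⟨?_, h0, ?_⟩
    · by_contra hm
      obtain ⟨x, hx, hne⟩ := two yM hyM 0 (by omega) yM
      obtain ⟨g1, g2, e', g3, g4, g5⟩ := htr yM hyM 0 (by omega) h0 x hx
      have k1 := hmax x g1
      have k2 := hmax _ g2
      rcases g3 with rfl | rfl | rfl
      · exact hm g4
      · omega
      · omega
    · by_contra hm
      obtain ⟨x, hx, hne⟩ := two ym hym 0 (by omega) ym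
      obtain ⟨g1, g2, e', g3, g4, g5⟩ := htr ym hym 0 (by omega) h0 x hx
      have k1 := hmin x g1
      have k2 := hmin _ g2
      rcases g3 with rfl | rfl | rfl
      · omega
      · omega
      · exact hm g4
  · exfalso
    by_cases h1 : M 1
    · by_cases h2 : M (-1)
      · -- both, not `0`
        have iso1 : ∀ x ∈ F, x + 1 ∉ D := by
          intro x hx h
          exact h0 (hcl x hx (-1) (by omega) h2 x (hF hx) (x + 1) h 0 (by omega) (by ring)).2.2
        have iso2 : ∀ x ∈ F, x - 1 ∉ D := by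
          intro x hx h
          exact h0 (hcl x hx 1 (by omega) h1 x (hF hx) (x - 1) h 0 (by omega) (by ring)).2.2
        have bad : ∀ y ∈ F, 2 * (D.card : ℤ) ≤
            b + ((XX b D y 1).filter (fun x => x = b - 1 ∨ refl b y 1 x = 0)).card := by
          intro y hy
          have hy1 := hrange y (hF hy)
          have k1 := count hD hy1.1 hy1.2 (e := 1) (by omega)
          have k2 : ((XX b D y 1).filter (fun x => ¬ (x = b - 1 ∨ refl b y 1 x = 0))).card ≤
              ((Ico 0 b).filter (fun x => x ∉ D ∧ refl b y 1 x ∉ D)).card := by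
            apply card_le_card_of_injOn (fun x => x + 1)
            · intro x hx
              rw [mem_coe, mem_filter] at hx
              obtain ⟨hx1, hx2⟩ := hx
              obtain ⟨g1, g2, e', g3, g4, g5⟩ := htr y hy 1 (by omega) h1 x hx1
              push Not at hx2
              have g6 := hrange x (hF g1)
              have g7 := hrange _ (hF g2)
              have g8 : refl b y 1 (x + 1) = refl b y 1 x - 1 := by
                have g9 := hx2.2
                have g10 := hx2.1
                revert g7 g9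
                unfold refl
                split_ifs <;> intro g7 g9 <;> omega
              simp only [coe_filter, Set.mem_ofPred_eq, mem_Ico]
              refine ⟨⟨by omega, by omega⟩, iso1 x g1, ?_⟩
              rw [g8]
              exact iso2 _ g2
            · intro u _ v _ huv
              simp only at huv
              omega
          have k3 := card_filter_add_card_filter_not (s := XX b D y 1) (fun x => x = b - 1 ∨ refl b y 1 x = 0)
          have k4 : (((XX b D y 1).filter (fun x => ¬ (x = b - 1 ∨ refl b y 1 x = 0))).card : ℤ) ≤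
              ((Ico 0 b).filter (fun x => x ∉ D ∧ refl b y 1 x ∉ D)).card := by exact_mod_cast k2
          have k5 : (((XX b D y 1).filter (fun x => x = b - 1 ∨ refl b y 1 x = 0)).card : ℤ) +
              ((XX b D y 1).filter (fun x => ¬ (x = b - 1 ∨ refl b y 1 x = 0))).card = (XX b D y 1).card := by
            exact_mod_cast k3
          linarith
        have hzero : (0 : ℤ) ∈ F := by
          by_contra hz
          have k1 := bad ym hym
          have k2 : ((XX b D ym 1).filter (fun x => x = b - 1 ∨ refl b ym 1 x = 0)).card ≤ 1 := by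
            have : (XX b D ym 1).filter (fun x => x = b - 1 ∨ refl b ym 1 x = 0) ⊆ {b - 1} := by
              intro x hx
              rw [mem_filter] at hx
              rcases hx.2 with h | h
              · exact mem_singleton.2 h
              · have := (htr ym hym 1 (by omega) h1 x hx.1).2.1
                rw [h] at this
                exact absurd this hz
            exact (card_le_card this).trans (by rw [card_singleton])
          have k3 : (((XX b D ym 1).filter (fun x => x = b - 1 ∨ refl b ym 1 x = 0)).card : ℤ) ≤ 1 := by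
            exact_mod_cast k2
          linarith
        have k1 := bad 0 hzero
        have k2 : ((XX b D 0 1).filter (fun x => x = b - 1 ∨ refl b 0 1 x = 0)).card ≤ 1 := by
          have : (XX b D 0 1).filter (fun x => x = b - 1 ∨ refl b 0 1 x = 0) ⊆ {b - 1} := by
            intro x hx
            rw [mem_filter] at hx
            have g1 := (htr 0 hzero 1 (by omega) h1 x hx.1).1
            have g6 := hrange x (hF g1)
            rcases hx.2 with h | h
            · exact mem_singleton.2 h
            · rw [mem_singleton]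
              revert h
              unfold refl
              split_ifs <;> intro h <;> omega
          exact (card_le_card this).trans (by rw [card_singleton])
        have k3 : (((XX b D 0 1).filter (fun x => x = b - 1 ∨ refl b 0 1 x = 0)).card : ℤ) ≤ 1 := by
          exact_mod_cast k2
        linarith
      · obtain ⟨x, hx, -⟩ := two yM hyM 1 (by omega) yM
        obtain ⟨g1, g2, e', g3, g4, g5⟩ := htr yM hyM 1 (by omega) h1 x hx
        have k1 := hmax x g1
        have k2 := hmax _ g2
        rcases g3 with rfl | rfl | rfl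
        · exact h2 g4
        · exact h0 g4
        · omega
    · have h2 : M (-1) := by tauto
      obtain ⟨x, hx, -⟩ := two ym hym (-1) (by omega) ym
      obtain ⟨g1, g2, e', g3, g4, g5⟩ := htr ym hym (-1) (by omega) h2 x hx
      have k1 := hmin x g1
      have k2 := hmin _ g2
      rcases g3 with rfl | rfl | rfl
      · omega
      · exact h0 g4
      · exact h1 g4

/-- **Tightness.** Every feasible potential is constant on the carries, and equal at neighbouring digits of `D`. -/
theorem tight {b : ℤ} {D : Finset ℤ} (hb : 2 ≤ b) (hD : D ⊆ Ico 0 b) (hc : b + 2 ≤ 2 * (D.card : ℤ))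
    {f₁ f₂ g : ℤ → ℚ} (h : Feas b D f₁ f₂ g) {u : ℤ} (hu : u ∈ D) (hu1 : u + 1 ∈ D) :
    f₁ u = f₁ (u + 1) ∧ f₂ u = f₂ (u + 1) ∧ g (-1) = g 0 ∧ g 1 = g 0 := by
  classical
  have hne : D.Nonempty := ⟨u, hu⟩
  obtain ⟨y₀, hy₀, hmin⟩ := D.exists_min_image (fun y => f₁ y + f₂ y) hne
  obtain ⟨e₀, he₀, hmax⟩ := ({-1, 0, 1} : Finset ℤ).exists_max_image g ⟨0, by simp⟩
  have hmax' : ∀ e : ℤ, (e = -1 ∨ e = 0 ∨ e = 1) → g e ≤ g e₀ := fun e he => hmax e (by simpa using he)
  have h0 : ∀ e : ℤ, (e = -1 ∨ e = 0 ∨ e = 1) ↔ e ∈ ({-1, 0, 1} : Finset ℤ) := fun e => by simp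
  have key := closed_all (F := D.filter (fun y => f₁ y + f₂ y = f₁ y₀ + f₂ y₀)) hb hD hc (filter_subset _ _)
    ⟨y₀, mem_filter.2 ⟨hy₀, rfl⟩⟩ (M := fun e => g e = g e₀) (by
      have := (h0 e₀).2 he₀
      rcases this with rfl | rfl | rfl <;> simp) (by
      intro y hy e he hge x hx z hz e' he' heq
      rw [mem_filter] at hy
      have k1 := h x hx y hy.1 z hz e e' he he' heq
      have k2 := h z hz y hy.1 x hx e e' he he' (by linarith)
      have k3 := hmin x hx
      have k4 := hmin z hz
      have k5 := hmax' e' he'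
      have k6 := hy.2
      refine ⟨mem_filter.2 ⟨hx, ?_⟩, mem_filter.2 ⟨hz, ?_⟩, ?_⟩
      · linarith
      · linarith
      · change g e' = g e₀
        linarith)
  obtain ⟨k1, k2, k3⟩ := key
  have e1 : g (-1) = g 0 := by rw [k1, k2]
  have e2 : g 1 = g 0 := by rw [k3, k2]
  have c1 := h u hu (u + 1) hu1 (u + 1) hu1 1 0 (by omega) (by omega) (by ring)
  have c2 := h (u + 1) hu1 (u + 1) hu1 u hu 1 0 (by omega) (by omega) (by ring)
  have c3 := h u hu u hu (u + 1) hu1 (-1) 0 (by omega) (by omega) (by ring)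
  have c4 := h (u + 1) hu1 u hu u hu (-1) 0 (by omega) (by omega) (by ring)
  exact ⟨by linarith, by linarith, e1, e2⟩

end Pool.Agent.L5helper7.DS
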