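import Pool.Agent.H287R3.RA.APa

/-!
# Closed walks through all edges of a connected balanced directed multigraph
-/

set_option autoImplicit false

namespace Pool.Agent.L5helper7.DS

open Finset Equiv

/-- joining two cycles of a permutation with a transposition -/
theorem merge {I : Type} [Finite I] [DecidableEq I] (σ : Perm I) (i j : I) (hij : ¬ σ.SameCycle i j) :
    ∀ x, (σ.SameCycle i x ∨ x = j) → (σ * swap i j).SameCycle j x := by
  set σ' := σ * swap i j with hσ'
  have hj : σ' j = σ i := by rw [hσ', Perm.mul_apply, swap_apply_right]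
  have ho : ∀ x, x ≠ i → x ≠ j → σ' x = σ x := fun x h1 h2 => by
    rw [hσ', Perm.mul_apply, swap_apply_of_ne_of_ne h1 h2]
  have hne : ∀ k : ℕ, (σ ^ k) i ≠ j := fun k h => hij ⟨k, by rw [zpow_natCast]; exact h⟩
  have hstep : ∀ x, σ'.SameCycle j x → σ'.SameCycle j (σ' x) := fun x h => Perm.sameCycle_apply_right.2 h
  have h1 : σ'.SameCycle j (σ i) := by
    rw [← hj]
    exact hstep j (Perm.SameCycle.refl _ _)
  have hi : σ'.SameCycle j i := by
    by_contra hcon
    have h2 : ∀ k : ℕ, σ'.SameCycle j ((σ ^ (k + 1)) i) := by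
      intro k
      induction k with
      | zero => simpa using h1
      | succ k ih =>
        have h3 : (σ ^ (k + 1)) i ≠ i := by
          intro h
          rw [h] at ih
          exact hcon ih
        have h4 := hstep _ ih
        rw [ho _ h3 (hne _)] at h4
        rw [pow_succ', Perm.mul_apply]
        exact h4
    have h5 := h2 (orderOf σ - 1)
    rw [Nat.sub_add_cancel (orderOf_pos σ), pow_orderOf_eq_one] at h5
    exact hcon h5
  have h2 : ∀ k : ℕ, σ'.SameCycle j ((σ ^ k) i) := by
    intro k
    induction k with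
    | zero => simpa using hi
    | succ k ih =>
      rw [pow_succ', Perm.mul_apply]
      by_cases h3 : (σ ^ k) i = i
      · rw [h3]
        exact h1
      · have h4 := hstep _ ih
        rwa [ho _ h3 (hne _)] at h4
  rintro x (hx | rfl)
  · obtain ⟨k, hk⟩ := hx.exists_nat_pow_eq
    rw [← hk]
    exact h2 k
  · exact Perm.SameCycle.refl _ _

/-- **Closed walks.** `s i` and `τ i` are the start and the end of the edge `i`. -/
theorem euler {I V : Type} [Fintype I] [DecidableEq I] [DecidableEq V] (s τ : I → V)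
    (hbal : ∀ v, Fintype.card {i // τ i = v} = Fintype.card {i // s i = v}) (i₀ : I)
    (hconn : ∀ O : I → Prop, O i₀ → (∀ i, O i → ∀ j, τ j = τ i → O j) → (∀ i, O i → ∀ j, τ j = s i → O j) →
      ∀ j, O j) :
    ∃ (N : ℕ) (ρ : Fin N ≃ I) (c : ℕ → V), 0 < N ∧ c 0 = τ i₀ ∧ c N = τ i₀ ∧
      ∀ k : Fin N, s (ρ k) = c k ∧ τ (ρ k) = c (k + 1) := by
  classical
  obtain ⟨σ₀, hσ₀⟩ := Pool.Agent.H287R3.RA.AP.exists_perm τ s hbal
  set P : Finset (Perm I) := univ.filter (fun σ => ∀ i, s (σ i) = τ i) with hP
  have hPne : P.Nonempty := ⟨σ₀, by rw [hP, mem_filter]; exact ⟨mem_univ _, fun i => (hσ₀ i).symm⟩⟩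
  obtain ⟨σ, hσP, hmax⟩ := P.exists_max_image
    (fun σ => (univ.filter (fun x => σ.SameCycle i₀ x)).card) hPne
  rw [hP, mem_filter] at hσP
  have hσ := hσP.2
  have hclose : ∀ i, σ.SameCycle i₀ i → ∀ j, τ j = τ i → σ.SameCycle i₀ j := by
    intro i hi j hj
    by_contra hcon
    have hij : ¬ σ.SameCycle i j := fun h => hcon (hi.trans h)
    have hm := merge σ i j hij
    have h1 : σ * swap i j ∈ P := by
      rw [hP, mem_filter]
      refine ⟨mem_univ _, fun k => ?_⟩
      rw [Perm.mul_apply]
      by_cases hk : k = i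
      · subst hk
        rw [swap_apply_left, hσ, hj]
      · by_cases hk2 : k = j
        · subst hk2
          rw [swap_apply_right, hσ, hj]
        · rw [swap_apply_of_ne_of_ne hk hk2, hσ]
    have h2 := hmax _ h1
    have h3 : insert j (univ.filter (fun x => σ.SameCycle i₀ x)) ⊆
        univ.filter (fun x => (σ * swap i j).SameCycle i₀ x) := by
      have h4 : (σ * swap i j).SameCycle j i₀ := hm i₀ (Or.inl hi.symm)
      intro x hx
      rw [mem_insert, mem_filter] at hx
      rw [mem_filter]
      refine ⟨mem_univ _, h4.symm.trans (hm x ?_)⟩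
      rcases hx with rfl | ⟨-, hx⟩
      · exact Or.inr rfl
      · exact Or.inl (hi.symm.trans hx)
    have h5 := card_le_card h3
    rw [card_insert_of_notMem (by rw [mem_filter]; exact fun h => hcon h.2)] at h5
    omega
  have hall : ∀ j, σ.SameCycle i₀ j := by
    refine hconn (fun j => σ.SameCycle i₀ j) (Perm.SameCycle.refl _ _) hclose ?_
    intro i hi j hj
    have h1 : σ.SameCycle i₀ (σ.symm i) := Perm.sameCycle_symm_apply_right.2 hi
    refine hclose _ h1 j ?_
    rw [hj, ← hσ, Equiv.apply_symm_apply]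
  set i₁ := σ i₀ with hi₁
  have hper : i₁ ∈ Function.periodicPts σ := by
    refine ⟨orderOf σ, orderOf_pos σ, ?_⟩
    unfold Function.IsPeriodicPt Function.IsFixedPt
    rw [← Perm.coe_pow, pow_orderOf_eq_one]
    rfl
  set N := Function.minimalPeriod σ i₁ with hN
  have hNpos : 0 < N := Function.minimalPeriod_pos_of_mem_periodicPts hper
  have hbij : Function.Bijective (fun k : Fin N => σ^[(k : ℕ)] i₁) := by
    constructor
    · intro k l hkl
      exact Fin.ext (Function.iterate_injOn_Iio_minimalPeriod (Set.mem_Iio.2 k.2) (Set.mem_Iio.2 l.2) hkl)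
    · intro x
      have h1 : σ.SameCycle i₁ x := (Perm.sameCycle_apply_right.2 (Perm.SameCycle.refl σ i₀)).symm.trans (hall x)
      obtain ⟨k, hk⟩ := h1.exists_nat_pow_eq
      refine ⟨⟨k % N, Nat.mod_lt _ hNpos⟩, ?_⟩
      simp only
      rw [hN, Function.iterate_mod_minimalPeriod_eq, ← Perm.coe_pow]
      exact hk
  refine ⟨N, Equiv.ofBijective _ hbij, fun k => s (σ^[k] i₁), hNpos, ?_, ?_, ?_⟩
  · simp only [Function.iterate_zero, id]
    rw [hi₁, hσ]
  · simp only
    rw [hN, Function.iterate_minimalPeriod, hi₁, hσ]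
  · intro k
    refine ⟨rfl, ?_⟩
    simp only [Equiv.ofBijective_apply]
    rw [Function.iterate_succ_apply', hσ]

end Pool.Agent.L5helper7.DS
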