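import Pool.Agent.L5helper7.DS.Up

/-!
# Sets of integers without three-term progressions that are invariant under permutations of the digits: lower bound
-/

set_option autoImplicit false

namespace Pool.Agent.L5helper7.DS

open Finset Equiv

/-- words with digits below `(b + 1) / 2`: no carries -/
theorem no_carry {b : ℕ} (hb : 2 ≤ b) : ∀ {n : ℕ} (u v w : Fin n → Fin b),
    (∀ i, (u i : ℕ) < (b + 1) / 2) → (∀ i, (v i : ℕ) < (b + 1) / 2) → (∀ i, (w i : ℕ) < (b + 1) / 2) →
    val u + val w = 2 * val v → ∀ i, (u i : ℕ) + (w i : ℕ) = 2 * (v i : ℕ) := by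
  intro n
  induction n with
  | zero => intro u v w _ _ _ _ i; exact i.elim0
  | succ n ih =>
    intro u v w hu hv hw h
    have e : ∀ t : Fin (n + 1) → Fin b, val t = (t 0 : ℕ) + b * val (fun i : Fin n => t i.succ) := by
      intro t
      unfold val
      rw [Fin.sum_univ_succ, mul_sum]
      congr 1
      · simp
      · refine sum_congr rfl fun i _ => ?_
        rw [Fin.val_succ, pow_succ]
        ring
    rw [e u, e v, e w] at h
    have h0u := hu 0
    have h0v := hv 0
    have h0w := hw 0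
    have hmod : ((u 0 : ℕ) + (w 0 : ℕ)) % b = (2 * (v 0 : ℕ)) % b := by
      have h1 : ((u 0 : ℕ) + (w 0 : ℕ) + b * (val (fun i : Fin n => u i.succ) + val (fun i : Fin n => w i.succ))) % b =
          (2 * (v 0 : ℕ) + b * (2 * val (fun i : Fin n => v i.succ))) % b := by
        congr 1
        linarith
      rwa [Nat.add_mul_mod_self_left, Nat.add_mul_mod_self_left] at h1
    rw [Nat.mod_eq_of_lt (by omega), Nat.mod_eq_of_lt (by omega)] at hmod
    have hrest : val (fun i : Fin n => u i.succ) + val (fun i : Fin n => w i.succ) =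
        2 * val (fun i : Fin n => v i.succ) := by
      have h1 : b * (val (fun i : Fin n => u i.succ) + val (fun i : Fin n => w i.succ)) =
          b * (2 * val (fun i : Fin n => v i.succ)) := by
        linarith
      exact Nat.eq_of_mul_eq_mul_left (by omega) h1
    intro i
    refine Fin.cases hmod (fun j => ?_) i
    exact ih _ _ _ (fun j => hu j.succ) (fun j => hv j.succ) (fun j => hw j.succ) hrest j

/-- the lower bound: spheres -/
theorem lower {b : ℕ} (hb : 2 ≤ b) (n : ℕ) : ∃ B : Finset (Fin n → Fin b),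
    FreeW B ∧ SymW B ∧ ((b + 1) / 2) ^ n ≤ (n * ((b + 1) / 2) ^ 2 + 1) * B.card := by
  classical
  obtain ⟨h, hh⟩ : ∃ h, h = (b + 1) / 2 := ⟨_, rfl⟩
  have hnc := fun (u v w : Fin n → Fin b) => no_carry hb u v w
  rw [← hh] at hnc ⊢
  have hhb : h ≤ b := by omega
  set S : Finset (Fin n → Fin b) := univ.filter (fun x => ∀ i, (x i : ℕ) < h) with hS
  set q : (Fin n → Fin b) → ℕ := fun x => ∑ i, (x i : ℕ) ^ 2 with hq
  have hScard : S.card = h ^ n := by
    have e : {x : Fin n → Fin b // ∀ i, (x i : ℕ) < h} ≃ (Fin n → Fin h) :=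
      { toFun := fun x i => ⟨(x.1 i : ℕ), x.2 i⟩
        invFun := fun f => ⟨fun i => ⟨(f i : ℕ), (f i).2.trans_le hhb⟩, fun i => (f i).2⟩
        left_inv := fun x => rfl
        right_inv := fun f => rfl }
    have h1 := Fintype.card_congr e
    rw [Fintype.card_fun, Fintype.card_fin, Fintype.card_fin, Fintype.card_subtype] at h1
    exact h1
  have hmaps : ∀ x ∈ S, q x ∈ Finset.range (n * h ^ 2 + 1) := by
    intro x hx
    rw [hS, Finset.mem_filter] at hx
    rw [Finset.mem_range]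
    have : q x ≤ ∑ _i : Fin n, h ^ 2 :=
      Finset.sum_le_sum (fun i _ => Nat.pow_le_pow_left (hx.2 i).le 2)
    rw [Finset.sum_const, Finset.card_univ, Fintype.card_fin, smul_eq_mul] at this
    omega
  obtain ⟨s, hs⟩ : ∃ s, h ^ n ≤ (n * h ^ 2 + 1) * (S.filter (fun x => q x = s)).card := by
    by_contra hcon
    push Not at hcon
    have h1 : S.card = ∑ s ∈ Finset.range (n * h ^ 2 + 1), (S.filter (fun x => q x = s)).card :=
      Finset.card_eq_sum_card_fiberwise hmaps
    have h2 : ∑ s ∈ Finset.range (n * h ^ 2 + 1),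
        ((n * h ^ 2 + 1) * (S.filter (fun x => q x = s)).card) <
        ∑ _s ∈ Finset.range (n * h ^ 2 + 1), h ^ n :=
      Finset.sum_lt_sum_of_nonempty ⟨0, by simp⟩ (fun s _ => hcon s)
    rw [← Finset.mul_sum, ← h1, hScard, Finset.sum_const, Finset.card_range, smul_eq_mul] at h2
    exact lt_irrefl _ h2
  refine ⟨S.filter (fun x => q x = s), ?_, ?_, hs⟩
  · intro x h1 y h2 z h3 hxyz
    rw [Finset.mem_filter, hS, Finset.mem_filter] at h1 h2 h3
    have hmid := hnc x y z h1.1.2 h2.1.2 h3.1.2 hxyz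
    have hsum : ∑ i, (((x i : ℕ) : ℤ) - ((z i : ℕ) : ℤ)) ^ 2 = 0 := by
      have e1 : ∀ i, (((x i : ℕ) : ℤ) - ((z i : ℕ) : ℤ)) ^ 2 =
          2 * ((x i : ℕ) : ℤ) ^ 2 + 2 * ((z i : ℕ) : ℤ) ^ 2 - 4 * ((y i : ℕ) : ℤ) ^ 2 := by
        intro i
        have e2 : ((x i : ℕ) : ℤ) + ((z i : ℕ) : ℤ) = 2 * ((y i : ℕ) : ℤ) := by
          exact_mod_cast hmid i
        have e3 : ((z i : ℕ) : ℤ) = 2 * ((y i : ℕ) : ℤ) - ((x i : ℕ) : ℤ) := by linarith
        rw [e3]
        ring
      rw [Finset.sum_congr rfl (fun i _ => e1 i), Finset.sum_sub_distrib, Finset.sum_add_distrib,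
        ← Finset.mul_sum, ← Finset.mul_sum, ← Finset.mul_sum]
      have q1 : ∑ i, ((x i : ℕ) : ℤ) ^ 2 = s := by exact_mod_cast h1.2
      have q2 : ∑ i, ((y i : ℕ) : ℤ) ^ 2 = s := by exact_mod_cast h2.2
      have q3 : ∑ i, ((z i : ℕ) : ℤ) ^ 2 = s := by exact_mod_cast h3.2
      rw [q1, q2, q3]
      ring
    have hz := (Finset.sum_eq_zero_iff_of_nonneg (fun i _ => sq_nonneg _)).1 hsum
    funext i
    have e1 := hz i (Finset.mem_univ i)
    have e2 : ((x i : ℕ) : ℤ) = ((z i : ℕ) : ℤ) := by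
      have := pow_eq_zero_iff (n := 2) (by norm_num) |>.1 e1
      linarith
    exact Fin.ext (by exact_mod_cast e2)
  · intro σ x hx
    rw [Finset.mem_filter, hS, Finset.mem_filter] at hx ⊢
    refine ⟨⟨Finset.mem_univ _, fun i => hx.1.2 (σ i)⟩, ?_⟩
    rw [← hx.2]
    simp only [hq]
    exact Equiv.sum_comp σ (fun i => (x i : ℕ) ^ 2)

end Pool.Agent.L5helper7.DS
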