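import Mathlib

/-!
# Permutation-invariant sets of words: letters are well distributed over blocks of places
-/

set_option autoImplicit false

namespace Pool.Agent.L5helper7.DS

open Finset Equiv

variable {n : ℕ} {α : Type} [DecidableEq α]

/-- invariant under permutations of the places -/
def Inv (O : Finset (Fin n → α)) : Prop := ∀ (σ : Perm (Fin n)), ∀ u ∈ O, (fun i => u (σ i)) ∈ O

/-- the number of the places with the letter `v` -/
def cnt (u : Fin n → α) (v : α) : ℕ := (univ.filter (fun i => u i = v)).card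

theorem cnt_comp (u : Fin n → α) (v : α) (σ : Perm (Fin n)) : cnt (fun i => u (σ i)) v = cnt u v := by
  unfold cnt
  rw [← card_map σ.toEmbedding]
  congr 1
  ext j
  rw [mem_map]
  constructor
  · rintro ⟨i, hi, rfl⟩
    rw [mem_filter] at hi ⊢
    exact ⟨mem_univ _, hi.2⟩
  · intro hj
    rw [mem_filter] at hj
    refine ⟨σ.symm j, ?_, by simp⟩
    rw [mem_filter]
    refine ⟨mem_univ _, ?_⟩
    simp only [Equiv.apply_symm_apply]
    exact hj.2

/-- sums over invariant sets -/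
theorem sum_comp {O : Finset (Fin n → α)} (hO : Inv O) (σ : Perm (Fin n)) (f : (Fin n → α) → ℝ) :
    ∑ u ∈ O, f (fun i => u (σ i)) = ∑ u ∈ O, f u := by
  refine Finset.sum_bij (fun u _ => fun i => u (σ i)) (fun u hu => hO σ u hu) ?_ ?_ (fun u _ => rfl)
  · intro u _ v _ h
    funext i
    have := congrFun h (σ.symm i)
    simpa using this
  · intro u hu
    refine ⟨fun i => u (σ.symm i), hO σ.symm u hu, ?_⟩
    funext i
    simp

theorem exists_perm2 {i j i' j' : Fin n} (h : i ≠ j) (h' : i' ≠ j') : ∃ σ : Perm (Fin n), σ i = i' ∧ σ j = j' := by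
  refine ⟨swap (swap i i' j) j' * swap i i', ?_, ?_⟩
  · rw [Perm.mul_apply, swap_apply_left, swap_apply_of_ne_of_ne _ h']
    intro hcon
    have : swap i i' i = swap i i' j := by rw [swap_apply_left]; exact hcon
    exact h ((swap i i').injective this)
  · rw [Perm.mul_apply, swap_apply_left]

/-- the indicator of the letter `v` at the place `i` -/
noncomputable def at1 (v : α) (i : Fin n) (u : Fin n → α) : ℝ := if u i = v then 1 else 0

theorem sum_at1 (v : α) (u : Fin n → α) (B : Finset (Fin n)) :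
    ∑ i ∈ B, at1 v i u = ((B.filter (fun i => u i = v)).card : ℝ) := by
  unfold at1
  rw [sum_ite, sum_const, sum_const_zero, add_zero, nsmul_eq_mul, mul_one]

/-- first moments -/
theorem mom1 {O : Finset (Fin n → α)} (hO : Inv O) (v : α) (g : ℕ → ℝ) (B : Finset (Fin n)) :
    n * ∑ u ∈ O, (∑ i ∈ B, at1 v i u) * g (cnt u v) = B.card * ∑ u ∈ O, cnt u v * g (cnt u v) := by
  have key : ∀ i j : Fin n, ∑ u ∈ O, at1 v i u * g (cnt u v) = ∑ u ∈ O, at1 v j u * g (cnt u v) := by
    intro i j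
    rw [← sum_comp hO (swap i j) (fun u => at1 v j u * g (cnt u v))]
    refine sum_congr rfl fun u _ => ?_
    rw [cnt_comp]
    unfold at1
    simp
  have h1 : ∀ i : Fin n, (n : ℝ) * ∑ u ∈ O, at1 v i u * g (cnt u v) = ∑ u ∈ O, cnt u v * g (cnt u v) := by
    intro i
    have h2 : ∑ j : Fin n, ∑ u ∈ O, at1 v j u * g (cnt u v) = n * ∑ u ∈ O, at1 v i u * g (cnt u v) := by
      rw [sum_congr rfl (fun j _ => key j i), sum_const, card_univ, Fintype.card_fin, nsmul_eq_mul]
    rw [← h2, sum_comm]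
    refine sum_congr rfl fun u _ => ?_
    rw [← sum_mul, sum_at1]
    rfl
  have h3 : ∑ u ∈ O, (∑ i ∈ B, at1 v i u) * g (cnt u v) = ∑ i ∈ B, ∑ u ∈ O, at1 v i u * g (cnt u v) := by
    rw [sum_comm]
    refine sum_congr rfl fun u _ => ?_
    rw [sum_mul]
  rw [h3, mul_sum, sum_congr rfl (fun i _ => h1 i), sum_const, nsmul_eq_mul]

/-- second moments -/
theorem mom2 {O : Finset (Fin n → α)} (hO : Inv O) (v : α) (B : Finset (Fin n)) :
    n * ((n : ℝ) - 1) * ∑ u ∈ O, ((∑ i ∈ B, at1 v i u) ^ 2 - ∑ i ∈ B, at1 v i u) =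
      B.card * ((B.card : ℝ) - 1) * ∑ u ∈ O, ((cnt u v : ℝ) ^ 2 - cnt u v) := by
  have hsq : ∀ (B : Finset (Fin n)) (u : Fin n → α), (∑ i ∈ B, at1 v i u) ^ 2 - ∑ i ∈ B, at1 v i u =
      ∑ q ∈ B.offDiag, at1 v q.1 u * at1 v q.2 u := by
    intro B u
    rw [sq, sum_mul_sum, ← sum_product', ← B.diag_union_offDiag, sum_union (disjoint_diag_offDiag B)]
    have h1 : ∑ q ∈ B.diag, at1 v q.1 u * at1 v q.2 u = ∑ i ∈ B, at1 v i u := by
      rw [sum_diag]
      refine sum_congr rfl fun i _ => ?_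
      unfold at1
      split_ifs <;> ring
    rw [h1]
    ring
  have key : ∀ q q' : Fin n × Fin n, q.1 ≠ q.2 → q'.1 ≠ q'.2 →
      ∑ u ∈ O, at1 v q.1 u * at1 v q.2 u = ∑ u ∈ O, at1 v q'.1 u * at1 v q'.2 u := by
    intro q q' hq hq'
    obtain ⟨σ, h1, h2⟩ := exists_perm2 hq hq'
    rw [← sum_comp hO σ (fun u => at1 v q.1 u * at1 v q.2 u)]
    refine sum_congr rfl fun u _ => ?_
    unfold at1
    simp only [h1, h2]
  have hoff : ∀ B : Finset (Fin n), (B.offDiag.card : ℝ) = B.card * ((B.card : ℝ) - 1) := by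
    intro B
    rw [offDiag_card]
    have h1 : B.card ≤ B.card * B.card := Nat.le_mul_self _
    rw [Nat.cast_sub h1]
    push_cast
    ring
  have hB : ∀ (B : Finset (Fin n)) (q' : Fin n × Fin n), q'.1 ≠ q'.2 →
      ∑ u ∈ O, ((∑ i ∈ B, at1 v i u) ^ 2 - ∑ i ∈ B, at1 v i u) =
      B.card * ((B.card : ℝ) - 1) * ∑ u ∈ O, at1 v q'.1 u * at1 v q'.2 u := by
    intro B q' hq'
    rw [sum_congr rfl (fun u _ => hsq B u), sum_comm, sum_congr rfl (fun q hq => key q q' (mem_offDiag.1 hq).2.2 hq'),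
      sum_const, nsmul_eq_mul, hoff]
  by_cases hn : 2 ≤ n
  · have hq' : ((⟨0, by omega⟩, ⟨1, by omega⟩) : Fin n × Fin n).1 ≠
        ((⟨0, by omega⟩, ⟨1, by omega⟩) : Fin n × Fin n).2 := by
      intro h
      have := congrArg Fin.val h
      simp at this
    have h1 := hB B _ hq'
    have h2 := hB univ _ hq'
    rw [card_univ, Fintype.card_fin] at h2
    have h3 : ∀ u : Fin n → α, (∑ i : Fin n, at1 v i u) = cnt u v := fun u => sum_at1 v u univ
    simp only [h3] at h2
    rw [h1, h2]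
    ring
  · have hn1 : n = 0 ∨ n = 1 := by omega
    have hBc : B.card ≤ n := by
      have := card_le_univ B
      rwa [Fintype.card_fin] at this
    rcases hn1 with hn1 | hn1
    · have h1 : B.card = 0 := by omega
      have h2 : (n : ℝ) = 0 := by exact_mod_cast hn1
      rw [h1, h2]
      simp
    · have hB1 : B.card = 0 ∨ B.card = 1 := by omega
      have h2 : (n : ℝ) = 1 := by exact_mod_cast hn1
      rw [h2]
      rcases hB1 with h | h <;> rw [h] <;> simp

/-- **Deviations.** In an invariant set all of whose words have the letter `v` at least at `ε n` places, few words have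
this letter less than `N` times in a block of `R ≥ 2 N / ε` places. -/
theorem deviate {O : Finset (Fin n → α)} (hO : Inv O) (v : α) (B : Finset (Fin n)) {ε : ℝ} (hε : 0 < ε) {N : ℕ}
    (hv : ∀ u ∈ O, ε * n ≤ cnt u v) (hR : 1 ≤ B.card) (hN : 2 * (N : ℝ) ≤ ε * B.card) :
    ε ^ 2 * B.card * ((O.filter (fun u => (B.filter (fun i => u i = v)).card < N)).card : ℝ) ≤ 4 * O.card := by
  have hBn : B.card ≤ n := by
    have := card_le_univ B
    rwa [Fintype.card_fin] at this
  have hn1 : 1 ≤ n := hR.trans hBn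
  obtain ⟨R, hRdef⟩ : ∃ R : ℝ, R = B.card := ⟨_, rfl⟩
  have hR1 : (1 : ℝ) ≤ R := by rw [hRdef]; exact_mod_cast hR
  have hnR : R ≤ n := by rw [hRdef]; exact_mod_cast hBn
  have hn0 : (0 : ℝ) < n := by linarith
  -- the second moment
  have m1 := mom1 hO v (fun _ => (1 : ℝ)) B
  have m1' := mom1 hO v (fun c => (c : ℝ)) B
  have m2 := mom2 hO v B
  simp only [mul_one] at m1
  rw [← hRdef] at m1 m1' m2
  obtain ⟨X, hX⟩ : ∃ X : (Fin n → α) → ℝ, X = fun u => ∑ i ∈ B, at1 v i u := ⟨_, rfl⟩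
  obtain ⟨c, hc⟩ : ∃ c : (Fin n → α) → ℝ, c = fun u => (cnt u v : ℝ) := ⟨_, rfl⟩
  have e1 : (n : ℝ) * ∑ u ∈ O, X u = R * ∑ u ∈ O, c u := by rw [hX, hc]; exact m1
  have e2 : (n : ℝ) * ∑ u ∈ O, X u * c u = R * ∑ u ∈ O, c u * c u := by rw [hX, hc]; exact m1'
  have e3 : n * ((n : ℝ) - 1) * ∑ u ∈ O, (X u ^ 2 - X u) = R * (R - 1) * ∑ u ∈ O, (c u ^ 2 - c u) := by
    rw [hX, hc]; exact m2
  have hc0 : ∀ u, 0 ≤ c u := fun u => by rw [hc]; positivity
  have hcn : ∀ u, c u ≤ n := fun u => by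
    rw [hc]
    have : cnt u v ≤ n := by
      unfold cnt
      refine (card_le_univ _).trans ?_
      rw [Fintype.card_fin]
    simp only
    exact_mod_cast this
  have hcc : ∀ u, 0 ≤ c u ^ 2 - c u := fun u => by
    rw [hc]
    have h1 : cnt u v ≤ cnt u v ^ 2 := Nat.le_self_pow (by norm_num) _
    have h2 : (cnt u v : ℝ) ≤ (cnt u v : ℝ) ^ 2 := by exact_mod_cast h1
    simp only
    linarith
  have e3' : ∑ u ∈ O, (X u ^ 2 - X u) ≤ (R / n) ^ 2 * ∑ u ∈ O, c u ^ 2 := by
    have hCC : ∑ u ∈ O, (c u ^ 2 - c u) ≤ ∑ u ∈ O, c u ^ 2 := sum_le_sum fun u _ => by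
      have := hc0 u
      linarith
    have hCC0 : 0 ≤ ∑ u ∈ O, (c u ^ 2 - c u) := sum_nonneg fun u _ => hcc u
    by_cases hn2 : n = 1
    · have hR' : R = 1 := by
        rw [hn2] at hnR
        push_cast at hnR
        linarith
      -- X ^ 2 = X in this case
      have h0 : ∀ u, X u ^ 2 - X u ≤ 0 := by
        intro u
        rw [hX]
        simp only
        rw [sum_at1]
        have h1 : (B.filter (fun i => u i = v)).card ≤ 1 := by
          have h2 : (B.filter (fun i => u i = v)).card ≤ B.card := card_le_card (filter_subset _ _)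
          omega
        have h2 : (((B.filter (fun i => u i = v)).card : ℕ) : ℝ) ≤ 1 := by exact_mod_cast h1
        have h3 : (0 : ℝ) ≤ ((B.filter (fun i => u i = v)).card : ℝ) := by positivity
        nlinarith
      refine (sum_nonpos fun u _ => h0 u).trans ?_
      have : 0 ≤ ∑ u ∈ O, c u ^ 2 := sum_nonneg fun u _ => sq_nonneg _
      positivity
    · have hn2' : (1 : ℝ) < n := by exact_mod_cast (by omega : 1 < n)
      have hpos : 0 < n * ((n : ℝ) - 1) := mul_pos hn0 (by linarith)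
      have h1 : ∑ u ∈ O, (X u ^ 2 - X u) = R * (R - 1) / (n * ((n : ℝ) - 1)) * ∑ u ∈ O, (c u ^ 2 - c u) := by
        rw [div_mul_eq_mul_div, eq_div_iff hpos.ne', ← e3]
        ring
      rw [h1]
      have h2 : R * (R - 1) / (n * ((n : ℝ) - 1)) ≤ (R / n) ^ 2 := by
        rw [div_pow, div_le_div_iff₀ hpos (by positivity)]
        have h3 : 0 ≤ R * n * (n - R) := mul_nonneg (by positivity) (by linarith)
        linarith
      calc _ ≤ (R / n) ^ 2 * ∑ u ∈ O, (c u ^ 2 - c u) := mul_le_mul_of_nonneg_right h2 hCC0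
        _ ≤ _ := mul_le_mul_of_nonneg_left hCC (by positivity)
  have hvar : ∑ u ∈ O, (R * c u / n - X u) ^ 2 ≤ R * O.card := by
    have h1 : ∑ u ∈ O, (R * c u / n - X u) ^ 2 =
        (R / n) ^ 2 * ∑ u ∈ O, c u ^ 2 - 2 * (R / n) * ∑ u ∈ O, X u * c u + (∑ u ∈ O, (X u ^ 2 - X u) + ∑ u ∈ O, X u) := by
      rw [mul_sum, mul_sum, ← sum_add_distrib, ← sum_sub_distrib, ← sum_add_distrib]
      refine sum_congr rfl fun u _ => ?_
      field_simp
      ring
    have h2 : ∑ u ∈ O, X u * c u = R / n * ∑ u ∈ O, c u ^ 2 := by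
      rw [div_mul_eq_mul_div, eq_div_iff hn0.ne', mul_comm, e2]
      congr 1
      exact sum_congr rfl fun u _ => (sq _).symm
    have h3 : ∑ u ∈ O, X u ≤ R * O.card := by
      have h4 : ∑ u ∈ O, X u = R / n * ∑ u ∈ O, c u := by
        rw [div_mul_eq_mul_div, eq_div_iff hn0.ne', mul_comm, e1]
      rw [h4]
      have h5 : ∑ u ∈ O, c u ≤ O.card * n := by
        calc ∑ u ∈ O, c u ≤ ∑ _u ∈ O, (n : ℝ) := sum_le_sum fun u _ => hcn u
          _ = _ := by rw [sum_const, nsmul_eq_mul]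
      calc R / n * ∑ u ∈ O, c u ≤ R / n * (O.card * n) := mul_le_mul_of_nonneg_left h5 (by positivity)
        _ = R * O.card := by field_simp
    rw [h1, h2]
    have h6 : 2 * (R / n) * (R / n * ∑ u ∈ O, c u ^ 2) = 2 * ((R / n) ^ 2 * ∑ u ∈ O, c u ^ 2) := by ring
    rw [h6]
    linarith
  -- Chebyshev
  have hbad : ∀ u ∈ O.filter (fun u => (B.filter (fun i => u i = v)).card < N),
      ε ^ 2 * R ^ 2 / 4 ≤ (R * c u / n - X u) ^ 2 := by
    intro u hu
    rw [mem_filter] at hu
    have h1 := hv u hu.1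
    have h2 : X u ≤ N := by
      rw [hX]
      simp only
      rw [sum_at1]
      exact_mod_cast hu.2.le
    have h3 : ε * R ≤ R * c u / n := by
      rw [le_div_iff₀ hn0]
      have h4 : ε * n ≤ c u := by rw [hc]; exact h1
      calc ε * R * n = R * (ε * n) := by ring
        _ ≤ R * c u := mul_le_mul_of_nonneg_left h4 (by linarith)
    rw [← hRdef] at hN
    have h5 : ε * R / 2 ≤ R * c u / n - X u := by linarith
    have h6 : 0 ≤ ε * R / 2 := by positivity
    calc ε ^ 2 * R ^ 2 / 4 = (ε * R / 2) ^ 2 := by ring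
      _ ≤ _ := pow_le_pow_left₀ h6 h5 2
  have h7 : ((O.filter (fun u => (B.filter (fun i => u i = v)).card < N)).card : ℝ) * (ε ^ 2 * R ^ 2 / 4) ≤
      R * O.card := by
    calc _ = ∑ _u ∈ O.filter (fun u => (B.filter (fun i => u i = v)).card < N), ε ^ 2 * R ^ 2 / 4 := by
          rw [sum_const, nsmul_eq_mul]
      _ ≤ ∑ u ∈ O.filter (fun u => (B.filter (fun i => u i = v)).card < N), (R * c u / n - X u) ^ 2 :=
        sum_le_sum hbad
      _ ≤ ∑ u ∈ O, (R * c u / n - X u) ^ 2 :=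
        sum_le_sum_of_subset_of_nonneg (filter_subset _ _) fun u _ _ => sq_nonneg _
      _ ≤ _ := hvar
  rw [← hRdef]
  have h8 : R * (ε ^ 2 * R * ((O.filter (fun u => (B.filter (fun i => u i = v)).card < N)).card : ℝ)) ≤
      R * (4 * O.card) := by
    calc _ = 4 * (((O.filter (fun u => (B.filter (fun i => u i = v)).card < N)).card : ℝ) * (ε ^ 2 * R ^ 2 / 4)) := by
          ring
      _ ≤ 4 * (R * O.card) := by linarith
      _ = _ := by ring
  exact le_of_mul_le_mul_left h8 (by linarith)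

end Pool.Agent.L5helper7.DS
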