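import Pool.Agent.L5helper7.DS.Wts
import Pool.Agent.L5helper7.DS.Euler

/-!
# A nontrivial solution of `x + z = 2 y` whose three words are rearrangements of each other
-/

set_option autoImplicit false

namespace Pool.Agent.L5helper7.DS

open Finset Equiv

/-- **The pattern.** Over every set `D` of at least `b / 2 + 1` digits there are three words `x, y, z` of the same
length, rearrangements of each other, with `x + z = 2 y` for the numbers they represent, and `x ≠ z`. -/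
theorem pattern {b : ℤ} {D : Finset ℤ} (hb : 2 ≤ b) (hD : D ⊆ Ico 0 b)
    (hc : b + 2 ≤ 2 * (D.card : ℤ)) : ∃ (N : ℕ) (x y z : Fin N → ℤ) (c : ℕ → ℤ), c 0 = 0 ∧ c N = 0 ∧
      (∀ k : Fin N, x k ∈ D ∧ y k ∈ D ∧ z k ∈ D ∧ x k + z k + c k = 2 * y k + b * c (k + 1)) ∧
      (∀ v, Fintype.card {k // x k = v} = Fintype.card {k // y k = v}) ∧
      (∀ v, Fintype.card {k // z k = v} = Fintype.card {k // y k = v}) ∧ ∃ k, x k ≠ z k := by
  classical
  obtain ⟨w, u, hu, hu1, hw1, hw2, hx, hz, he⟩ := exists_weights hb hD hc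
  have ht1 : (u, u + 1, u + 1, (1 : ℤ), (0 : ℤ)) ∈ TT b D :=
    mem_TT.2 ⟨hu, hu1, hu1, by omega, by omega, by ring⟩
  have ht2 : (u, u, u + 1, (-1 : ℤ), (0 : ℤ)) ∈ TT b D :=
    mem_TT.2 ⟨hu, hu, hu1, by omega, by omega, by ring⟩
  let I := Σ t : TT b D, Fin (w t)
  have cardI : ∀ (p : Tr → ℤ) (v : ℤ), Fintype.card {i : I // p i.1 = v} =
      ∑ t ∈ TT b D, w t * (if p t = v then 1 else 0) := by
    intro p v
    rw [Fintype.card_subtype, Finset.card_filter, ← Finset.univ_sigma_univ, Finset.sum_sigma,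
      ← Finset.sum_coe_sort (TT b D)]
    apply Finset.sum_congr rfl
    intro t _
    by_cases h : p ↑t = v
    · simp [h]
    · simp [h]
  let s : I → ℤ := fun i => (i.1 : Tr).2.2.2.1
  let τ : I → ℤ := fun i => (i.1 : Tr).2.2.2.2
  have hbal : ∀ v, Fintype.card {i // τ i = v} = Fintype.card {i // s i = v} := by
    intro v
    have h1 := cardI (fun t => t.2.2.2.2) v
    have h2 := cardI (fun t => t.2.2.2.1) v
    exact h1.trans ((he v).symm.trans h2.symm)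
  let i₁ : I := ⟨⟨_, ht1⟩, ⟨0, hw1⟩⟩
  let i₂ : I := ⟨⟨_, ht2⟩, ⟨0, hw2⟩⟩
  obtain ⟨N, ρ, c, -, hc0, hcN, hρ⟩ := euler s τ hbal i₁ (by
    intro O h1 h2 h3 j
    have h4 : O i₂ := h2 i₁ h1 i₂ rfl
    have hj : (j.1 : Tr).2.2.2.2 = -1 ∨ (j.1 : Tr).2.2.2.2 = 0 ∨ (j.1 : Tr).2.2.2.2 = 1 :=
      (mem_TT.1 j.1.2).2.2.2.2.1
    rcases hj with h | h | h
    · exact h3 i₂ h4 j h
    · exact h2 i₁ h1 j h
    · exact h3 i₁ h1 j h)
  have hcard : ∀ (p q : Tr → ℤ), (∀ v : ℤ, ∑ t ∈ TT b D, w t * (if p t = v then 1 else 0) =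
        ∑ t ∈ TT b D, w t * (if q t = v then 1 else 0)) → ∀ v : ℤ,
      Fintype.card {k : Fin N // p (ρ k).1 = v} = Fintype.card {k : Fin N // q (ρ k).1 = v} := by
    intro p q h v
    have e : ∀ p' : Tr → ℤ, Fintype.card {k : Fin N // p' (ρ k).1 = v} =
        Fintype.card {i : I // p' i.1 = v} := fun p' =>
      Fintype.card_congr (ρ.subtypeEquiv (fun k => Iff.rfl))
    rw [e p, e q, cardI, cardI, h v]
  refine ⟨N, fun k => ((ρ k).1 : Tr).1, fun k => ((ρ k).1 : Tr).2.1, fun k => ((ρ k).1 : Tr).2.2.1, c, hc0, hcN,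
    ?_, hcard (fun t => t.1) (fun t => t.2.1) hx, hcard (fun t => t.2.2.1) (fun t => t.2.1) hz,
    ρ.symm i₁, ?_⟩
  · intro k
    obtain ⟨h1, h2, h3, -, -, h4⟩ := mem_TT.1 (ρ k).1.2
    obtain ⟨g1, g2⟩ := hρ k
    refine ⟨h1, h2, h3, ?_⟩
    rw [← g1, ← g2]
    exact h4
  · simp only [Equiv.apply_symm_apply]
    show u ≠ u + 1
    omega

end Pool.Agent.L5helper7.DS
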