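import Pool.Agent.L5helper7.DS.Low
import Pool.Agent.L5helper7.DS.Blk

/-!
# Roth's theorem relative to sets of integers that are invariant under permutations of the digits
-/

set_option autoImplicit false

namespace Pool.Agent.L5helper7.DS

open Finset Equiv Filter Topology

/-- the pattern, as rearrangements of one word -/
theorem pattern_fin {b : ℕ} (hb : 2 ≤ b) (V : Finset (Fin b)) (hV : b + 2 ≤ 2 * V.card) :
    ∃ (N : ℕ) (Y : Fin N → Fin b) (σ σ' : Perm (Fin N)), (∀ r, Y r ∈ V) ∧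
      ∑ r : Fin N, (((Y (σ r) : ℕ) : ℤ) + ((Y (σ' r) : ℕ) : ℤ) - 2 * ((Y r : ℕ) : ℤ)) * (b : ℤ) ^ (r : ℕ) = 0 ∧
      ∃ r, Y (σ r) ≠ Y (σ' r) := by
  classical
  have hinjc : Function.Injective (fun v : Fin b => ((v : ℕ) : ℤ)) := by
    intro a c h
    simp only [Nat.cast_inj] at h
    exact Fin.ext h
  set D : Finset ℤ := V.image (fun v : Fin b => ((v : ℕ) : ℤ)) with hDdef
  have hDc : D.card = V.card := card_image_of_injective _ hinjc
  have hD : D ⊆ Ico 0 (b : ℤ) := by
    intro x hx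
    rw [hDdef, mem_image] at hx
    obtain ⟨v, -, rfl⟩ := hx
    rw [mem_Ico]
    exact ⟨by positivity, by exact_mod_cast v.2⟩
  obtain ⟨N, x, y, z, c, hc0, hcN, htr, hcx, hcz, k₀, hk₀⟩ := pattern (b := (b : ℤ)) (D := D)
    (by exact_mod_cast hb) hD (by rw [hDc]; exact_mod_cast hV)
  have hlift : ∀ t ∈ D, ∃ v ∈ V, ((v : ℕ) : ℤ) = t := by
    intro t ht
    rw [hDdef, mem_image] at ht
    exact ht
  choose X hXV hX using fun k => hlift (x k) (htr k).1
  choose Y hYV hY using fun k => hlift (y k) (htr k).2.1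
  choose Z hZV hZ using fun k => hlift (z k) (htr k).2.2.1
  have hcount : ∀ (p q : Fin N → ℤ) (P Q : Fin N → Fin b), (∀ k, ((P k : ℕ) : ℤ) = p k) →
      (∀ k, ((Q k : ℕ) : ℤ) = q k) → (∀ v, Fintype.card {k // p k = v} = Fintype.card {k // q k = v}) →
      ∀ v, Fintype.card {k // P k = v} = Fintype.card {k // Q k = v} := by
    intro p q P Q hP hQ h v
    have e : ∀ (p' : Fin N → ℤ) (P' : Fin N → Fin b), (∀ k, ((P' k : ℕ) : ℤ) = p' k) →
        Fintype.card {k // P' k = v} = Fintype.card {k // p' k = ((v : ℕ) : ℤ)} := by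
      intro p' P' hP'
      refine Fintype.card_congr (Equiv.subtypeEquivRight fun k => ?_)
      rw [← hP' k]
      exact ⟨fun h => by rw [h], fun h => hinjc h⟩
    rw [e p P hP, e q Q hQ, h]
  obtain ⟨σ, hσ⟩ := Pool.Agent.H287R3.RA.AP.exists_perm X Y (hcount x y X Y hX hY hcx)
  obtain ⟨σ', hσ'⟩ := Pool.Agent.H287R3.RA.AP.exists_perm Z Y (hcount z y Z Y hZ hY hcz)
  refine ⟨N, Y, σ, σ', hYV, ?_, k₀, ?_⟩
  · have h1 : ∀ r : Fin N, (((Y (σ r) : ℕ) : ℤ) + ((Y (σ' r) : ℕ) : ℤ) - 2 * ((Y r : ℕ) : ℤ)) * (b : ℤ) ^ (r : ℕ) =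
        (fun i : ℕ => (b : ℤ) ^ (i + 1) * c (i + 1) - (b : ℤ) ^ i * c i) r := by
      intro r
      rw [← hσ, ← hσ', hX, hY, hZ]
      have h2 := (htr r).2.2.2
      have h5 : x r + z r - 2 * y r = b * c ((r : ℕ) + 1) - c r := by linarith
      rw [h5]
      simp only
      rw [pow_succ]
      ring
    rw [sum_congr rfl (fun r _ => h1 r), Fin.sum_univ_eq_sum_range
      (fun i : ℕ => (b : ℤ) ^ (i + 1) * c (i + 1) - (b : ℤ) ^ i * c i) N,
      Finset.sum_range_sub (fun i => (b : ℤ) ^ i * c i), hc0, hcN]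
    ring
  · rw [← hσ, ← hσ']
    intro h
    exact hk₀ (by rw [← hX, ← hZ, h])

/-- progression-free sets have small density in invariant sets in which the letters of `V` are frequent -/
theorem dense_letters {b : ℕ} (hb : 2 ≤ b) (V : Finset (Fin b)) (hV : b + 2 ≤ 2 * V.card) {ε δ : ℝ}
    (hε : 0 < ε) (hδ : 0 < δ) : ∃ n₀ : ℕ, ∀ n : ℕ, n₀ ≤ n → ∀ O A : Finset (Fin n → Fin b), SymW O →
      (∀ u ∈ O, ∀ v ∈ V, ε * n ≤ cnt u v) → A ⊆ O → FreeW A → (A.card : ℝ) ≤ δ * O.card := by
  classical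
  obtain ⟨N, Y, σ, σ', hY, hsum, r₀, hr₀⟩ := pattern_fin hb V hV
  obtain ⟨R, L, hNR, hmain⟩ := patterns (k := 3) (by norm_num) Y ![σ, 1, σ'] V hY hε hδ
  refine ⟨L * R, fun n hn O A hO hOV hAO hA => ?_⟩
  by_contra hcon
  push Not at hcon
  obtain ⟨J, U, ⟨j₀, hj₀⟩, hUA, hUJ, hUo⟩ := hmain n hn O A hO hOV hAO hcon
  have hval : val (U 0) + val (U 2) = 2 * val (U 1) := by
    let term : Fin n → ℤ := fun x => (((U 0 x : ℕ) : ℤ) + ((U 2 x : ℕ) : ℤ) - 2 * ((U 1 x : ℕ) : ℤ)) * (b : ℤ) ^ (x : ℕ)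
    have h1 : ∑ x, term x = 0 := by
      let T : Finset (Fin n) := (J ×ˢ (univ : Finset (Fin N))).image (fun q => emb hn (q.1, Fin.castLE hNR q.2))
      have h2 : ∑ x, term x = ∑ x ∈ T, term x := by
        refine (sum_subset (subset_univ T) fun x _ hx => ?_).symm
        have hx' : ∀ j ∈ J, ∀ r : Fin N, x ≠ emb hn (j, Fin.castLE hNR r) := by
          intro j hj r hxe
          apply hx
          rw [mem_image]
          exact ⟨(j, r), by simp [hj], hxe.symm⟩
        simp only [term]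
        rw [hUo 0 1 x hx', hUo 2 1 x hx']
        ring
      have hinj : Function.Injective (fun q : Fin L × Fin N => emb hn (q.1, Fin.castLE hNR q.2)) := by
        rintro ⟨j, r⟩ ⟨j', r'⟩ h
        have h3 := (emb hn).injective h
        rw [Prod.mk.injEq] at h3
        exact Prod.ext h3.1 (Fin.castLE_injective hNR h3.2)
      rw [h2, sum_image (fun _ _ _ _ h => hinj h), sum_product]
      apply sum_eq_zero
      intro j hj
      have h4 : ∀ r : Fin N, term (emb hn (j, Fin.castLE hNR r)) =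
          (b : ℤ) ^ ((j : ℕ) * R) *
            ((((Y (σ r) : ℕ) : ℤ) + ((Y (σ' r) : ℕ) : ℤ) - 2 * ((Y r : ℕ) : ℤ)) * (b : ℤ) ^ (r : ℕ)) := by
        intro r
        simp only [term]
        rw [hUJ 0 j hj r, hUJ 2 j hj r, hUJ 1 j hj r, emb_val]
        simp only [Matrix.cons_val_zero, Matrix.cons_val_one, Matrix.cons_val_two, Matrix.tail_cons, Matrix.head_cons,
          Perm.one_apply, Fin.val_castLE]
        rw [pow_add]
        ring
      simp only
      rw [sum_congr rfl (fun r _ => h4 r), ← mul_sum, hsum, mul_zero]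
    have h5 : ((val (U 0) + val (U 2) : ℕ) : ℤ) = ((2 * val (U 1) : ℕ) : ℤ) := by
      unfold val
      push_cast
      rw [mul_sum, ← sum_add_distrib, ← sub_eq_zero, ← sum_sub_distrib, ← h1]
      refine sum_congr rfl fun i _ => ?_
      simp only [term]
      ring
    exact_mod_cast h5
  have h6 := hA _ (hUA 0) _ (hUA 1) _ (hUA 2) hval
  have h7 := hUJ 0 j₀ hj₀ r₀
  have h8 := hUJ 2 j₀ hj₀ r₀
  rw [h6, h8] at h7
  apply hr₀
  simpa using h7.symm

/-- few words have at most `h` frequent letters -/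
theorem few_words {b h : ℕ} (hb : 2 ≤ b) (hh : 1 ≤ h) (hhb : h ≤ b) {ε : ℝ} (hε : 0 < ε) :
    ∃ ε₁ : ℝ, 0 < ε₁ ∧ ∀ (n : ℕ), (((univ : Finset (Fin n → Fin b)).filter (fun u =>
      (univ.filter (fun v => ε₁ * n ≤ cnt u v)).card ≤ h)).card : ℝ) ≤ 2 ^ b * (h + ε / 2) ^ n := by
  classical
  have hb0 : (0 : ℝ) < b := by exact_mod_cast (by omega : 0 < b)
  have hh0 : (0 : ℝ) < h := by exact_mod_cast hh
  obtain ⟨x, hx⟩ : ∃ x : ℝ, x = min (1 / 2) (ε / (4 * b)) := ⟨_, rfl⟩
  have hx0 : 0 < x := by rw [hx]; exact lt_min (by norm_num) (by positivity)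
  have hx1 : x < 1 := by rw [hx]; exact (min_le_left _ _).trans_lt (by norm_num)
  have hxb : b * x ≤ ε / 4 := by
    have h1 : x ≤ ε / (4 * b) := by rw [hx]; exact min_le_right _ _
    calc b * x ≤ b * (ε / (4 * b)) := mul_le_mul_of_nonneg_left h1 hb0.le
      _ = ε / 4 := by field_simp
  obtain ⟨q, hq⟩ : ∃ q : ℝ, q = (h + ε / 2) / (h + ε / 4) := ⟨_, rfl⟩
  have hq1 : 1 < q := by
    rw [hq, one_lt_div (by positivity)]
    linarith
  have hlogq : 0 < Real.log q := Real.log_pos hq1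
  have hlogx : Real.log x < 0 := Real.log_neg hx0 hx1
  refine ⟨Real.log q / (b * (-Real.log x)), div_pos hlogq (mul_pos hb0 (by linarith)), fun n => ?_⟩
  obtain ⟨ε₁, hε₁⟩ : ∃ ε₁, ε₁ = Real.log q / (b * (-Real.log x)) := ⟨_, rfl⟩
  rw [← hε₁]
  have hθ : x ^ ((b : ℝ) * ε₁) = q⁻¹ := by
    rw [Real.rpow_def_of_pos hx0, hε₁]
    have h1 : Real.log x * (b * (Real.log q / (b * (-Real.log x)))) = -Real.log q := by
      have h2 : Real.log x ≠ 0 := hlogx.ne
      field_simp
    rw [h1, Real.exp_neg, Real.exp_log (by linarith)]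
  -- a fixed set of letters
  have hone : ∀ V : Finset (Fin b), V.card = h →
      (((univ : Finset (Fin n → Fin b)).filter (fun u => ((univ.filter (fun i => u i ∉ V)).card : ℝ) ≤ b * ε₁ * n)).card : ℝ) ≤
        (h + ε / 2) ^ n := by
    intro V hVc
    have h1 : ∑ u : Fin n → Fin b, ∏ i, (if u i ∈ V then (1 : ℝ) else x) = (∑ v : Fin b, if v ∈ V then (1 : ℝ) else x) ^ n :=
      (Fintype.sum_pow (fun v : Fin b => if v ∈ V then (1 : ℝ) else x) n).symm
    have h2 : ∑ v : Fin b, (if v ∈ V then (1 : ℝ) else x) ≤ h + ε / 4 := by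
      rw [sum_ite, sum_const, sum_const, nsmul_eq_mul, nsmul_eq_mul, mul_one]
      have h3 : (univ.filter (fun v => v ∈ V)).card = h := by
        rw [← hVc]
        congr 1
        ext v
        simp
      have h4 : ((univ.filter (fun v : Fin b => v ∉ V)).card : ℝ) ≤ b := by
        have : (univ.filter (fun v : Fin b => v ∉ V)).card ≤ b := by
          refine (card_le_univ _).trans ?_
          rw [Fintype.card_fin]
        exact_mod_cast this
      rw [h3]
      have h5 : ((univ.filter (fun v : Fin b => v ∉ V)).card : ℝ) * x ≤ b * x := mul_le_mul_of_nonneg_right h4 hx0.le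
      linarith
    have h3 : ∀ u : Fin n → Fin b, ∏ i, (if u i ∈ V then (1 : ℝ) else x) = x ^ (univ.filter (fun i => u i ∉ V)).card := by
      intro u
      rw [prod_ite, prod_const_one, one_mul, prod_const]
    have hsum0 : 0 ≤ ∑ v : Fin b, (if v ∈ V then (1 : ℝ) else x) := sum_nonneg fun v _ => by
      split_ifs <;> linarith
    have h4 : (q⁻¹) ^ n * (((univ : Finset (Fin n → Fin b)).filter
        (fun u => ((univ.filter (fun i => u i ∉ V)).card : ℝ) ≤ b * ε₁ * n)).card : ℝ) ≤ (h + ε / 4) ^ n := by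
      calc _ = ∑ _u ∈ (univ : Finset (Fin n → Fin b)).filter
            (fun u => ((univ.filter (fun i => u i ∉ V)).card : ℝ) ≤ b * ε₁ * n), (q⁻¹) ^ n := by
            rw [sum_const, nsmul_eq_mul, mul_comm]
        _ ≤ ∑ u ∈ (univ : Finset (Fin n → Fin b)).filter
            (fun u => ((univ.filter (fun i => u i ∉ V)).card : ℝ) ≤ b * ε₁ * n),
              ∏ i, (if u i ∈ V then (1 : ℝ) else x) := by
            refine sum_le_sum fun u hu => ?_
            rw [mem_filter] at hu
            rw [h3, ← hθ, ← Real.rpow_natCast x, ← Real.rpow_natCast, ← Real.rpow_mul hx0.le]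
            exact Real.rpow_le_rpow_of_exponent_ge hx0 hx1.le hu.2
        _ ≤ ∑ u : Fin n → Fin b, ∏ i, (if u i ∈ V then (1 : ℝ) else x) :=
            sum_le_sum_of_subset_of_nonneg (filter_subset _ _) fun u _ _ => by
              rw [h3]
              positivity
        _ = (∑ v : Fin b, if v ∈ V then (1 : ℝ) else x) ^ n := h1
        _ ≤ _ := pow_le_pow_left₀ hsum0 h2 n
    have hq0 : (0 : ℝ) < q := by linarith
    rw [inv_pow, inv_mul_le_iff₀ (by positivity), ← mul_pow] at h4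
    have h5 : q * (h + ε / 4) = h + ε / 2 := by
      rw [hq]
      field_simp
    rwa [h5] at h4
  have hsub : (univ : Finset (Fin n → Fin b)).filter (fun u => (univ.filter (fun v => ε₁ * n ≤ cnt u v)).card ≤ h) ⊆
      ((univ : Finset (Fin b)).powersetCard h).biUnion (fun V => (univ : Finset (Fin n → Fin b)).filter
        (fun u => ((univ.filter (fun i => u i ∉ V)).card : ℝ) ≤ b * ε₁ * n)) := by
    intro u hu
    rw [mem_filter] at hu
    obtain ⟨V, hV1, hV2, hV3⟩ := exists_subsuperset_card_eq (subset_univ _) hu.2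
      (by rw [card_univ, Fintype.card_fin]; exact hhb)
    rw [mem_biUnion]
    refine ⟨V, by rw [mem_powersetCard]; exact ⟨hV2, hV3⟩, ?_⟩
    rw [mem_filter]
    refine ⟨mem_univ _, ?_⟩
    have h1 : univ.filter (fun i => u i ∉ V) ⊆ (univ : Finset (Fin b)).biUnion
        (fun v => if v ∉ V then univ.filter (fun i => u i = v) else ∅) := by
      intro i hi
      rw [mem_filter] at hi
      rw [mem_biUnion]
      refine ⟨u i, mem_univ _, ?_⟩
      rw [if_pos hi.2, mem_filter]
      exact ⟨mem_univ _, rfl⟩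
    have h2 : (univ.filter (fun i => u i ∉ V)).card ≤
        ∑ v : Fin b, (if v ∉ V then univ.filter (fun i => u i = v) else ∅).card :=
      (card_le_card h1).trans card_biUnion_le
    have h3 : ((univ.filter (fun i => u i ∉ V)).card : ℝ) ≤
        ∑ v : Fin b, ((if v ∉ V then univ.filter (fun i => u i = v) else ∅ : Finset (Fin n)).card : ℝ) := by
      exact_mod_cast h2
    refine h3.trans ?_
    have hε₁n : 0 ≤ ε₁ * n := by
      have : 0 < ε₁ := by
        rw [hε₁]
        exact div_pos hlogq (mul_pos hb0 (by linarith))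
      positivity
    calc _ ≤ ∑ _v : Fin b, ε₁ * n := by
          refine sum_le_sum fun v _ => ?_
          by_cases hv : v ∉ V
          · rw [if_pos hv]
            by_contra hcon
            push Not at hcon
            exact hv (hV1 (by
              rw [mem_filter]
              exact ⟨mem_univ _, hcon.le⟩))
          · rw [if_neg hv, card_empty]
            simpa using hε₁n
      _ = b * ε₁ * n := by
          rw [sum_const, card_univ, Fintype.card_fin, nsmul_eq_mul]
          ring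
  have hpc : ((univ : Finset (Fin b)).powersetCard h).card ≤ 2 ^ b := by
    rw [card_powersetCard, card_univ, Fintype.card_fin]
    exact Nat.choose_le_two_pow b h
  calc _ ≤ ((((univ : Finset (Fin b)).powersetCard h).biUnion (fun V => (univ : Finset (Fin n → Fin b)).filter
        (fun u => ((univ.filter (fun i => u i ∉ V)).card : ℝ) ≤ b * ε₁ * n))).card : ℝ) := by
        exact_mod_cast card_le_card hsub
    _ ≤ ∑ V ∈ (univ : Finset (Fin b)).powersetCard h, (((univ : Finset (Fin n → Fin b)).filter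
        (fun u => ((univ.filter (fun i => u i ∉ V)).card : ℝ) ≤ b * ε₁ * n)).card : ℝ) := by
        exact_mod_cast card_biUnion_le
    _ ≤ ∑ _V ∈ (univ : Finset (Fin b)).powersetCard h, (h + ε / 2) ^ n :=
        sum_le_sum fun V hV => hone V (mem_powersetCard.1 hV).2
    _ = ((univ : Finset (Fin b)).powersetCard h).card * (h + ε / 2) ^ n := by rw [sum_const, nsmul_eq_mul]
    _ ≤ _ := by
        apply mul_le_mul_of_nonneg_right _ (by positivity)
        exact_mod_cast hpc

/-- **Roth's theorem relative to digit-symmetric sets of words.** -/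
theorem relative {b : ℕ} (hb : 2 ≤ b) {ε δ : ℝ} (hε : 0 < ε) (hδ : 0 < δ) : ∃ n₀ : ℕ, ∀ n : ℕ, n₀ ≤ n →
    ∀ S A : Finset (Fin n → Fin b), SymW S → (((b + 1) / 2 : ℕ) + ε) ^ n ≤ S.card → A ⊆ S → FreeW A →
      (A.card : ℝ) ≤ δ * S.card := by
  classical
  obtain ⟨h, hh⟩ : ∃ h, h = (b + 1) / 2 := ⟨_, rfl⟩
  rw [← hh]
  have hh1 : 1 ≤ h := by omega
  have hhb : h ≤ b := by omega
  have hh0 : (0 : ℝ) < h := by exact_mod_cast hh1
  obtain ⟨ε₁, hε₁, hfew⟩ := few_words hb hh1 hhb hε
  have hδ1 : 0 < δ / 2 ^ (b + 1) := by positivity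
  have hV : ∀ V : Finset (Fin b), ∃ n₀ : ℕ, b + 2 ≤ 2 * V.card → ∀ n : ℕ, n₀ ≤ n →
      ∀ O A : Finset (Fin n → Fin b), SymW O → (∀ u ∈ O, ∀ v ∈ V, ε₁ * n ≤ cnt u v) → A ⊆ O → FreeW A →
      (A.card : ℝ) ≤ δ / 2 ^ (b + 1) * O.card := by
    intro V
    by_cases hV : b + 2 ≤ 2 * V.card
    · obtain ⟨n₀, h1⟩ := dense_letters hb V hV hε₁ hδ1
      exact ⟨n₀, fun _ => h1⟩
    · exact ⟨0, fun h => absurd h hV⟩
  choose m hm using hV
  -- growth
  have hgrow : ∃ n₁ : ℕ, ∀ n : ℕ, n₁ ≤ n → 2 ^ b * (h + ε / 2) ^ n ≤ δ / 2 * (h + ε) ^ n := by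
    have h1 : Tendsto (fun n : ℕ => ((h + ε / 2) / (h + ε)) ^ n) atTop (𝓝 0) := by
      apply tendsto_pow_atTop_nhds_zero_of_lt_one (by positivity)
      rw [div_lt_one (by positivity)]
      linarith
    have h2 := h1.eventually (gt_mem_nhds (show (0 : ℝ) < δ / 2 / 2 ^ b by positivity))
    obtain ⟨n₁, hn₁⟩ := eventually_atTop.1 h2
    refine ⟨n₁, fun n hn => ?_⟩
    have h3 := hn₁ n hn
    rw [div_pow, div_lt_div_iff₀ (by positivity) (by positivity)] at h3
    linarith
  obtain ⟨n₁, hn₁⟩ := hgrow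
  refine ⟨∑ V : Finset (Fin b), m V + n₁, ?_⟩
  intro n hn S A hS hSc hAS hA
  have hmn : ∀ V : Finset (Fin b), m V ≤ n := by
    intro V
    have h1 : m V ≤ ∑ V : Finset (Fin b), m V := single_le_sum (f := m) (fun _ _ => Nat.zero_le _) (mem_univ V)
    omega
  set Few := (univ : Finset (Fin n → Fin b)).filter (fun u => (univ.filter (fun v => ε₁ * n ≤ cnt u v)).card ≤ h)
    with hFew
  let SV : Finset (Fin b) → Finset (Fin n → Fin b) := fun V => S.filter (fun u => ∀ v ∈ V, ε₁ * n ≤ cnt u v)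
  have hcov : A ⊆ Few ∪ ((univ : Finset (Finset (Fin b))).filter (fun V => b + 2 ≤ 2 * V.card)).biUnion
      (fun V => A ∩ SV V) := by
    intro u hu
    rw [mem_union]
    by_cases hf : u ∈ Few
    · exact Or.inl hf
    · right
      rw [hFew, mem_filter] at hf
      push Not at hf
      have h1 := hf (mem_univ _)
      rw [mem_biUnion]
      refine ⟨univ.filter (fun v => ε₁ * n ≤ cnt u v), ?_, ?_⟩
      · rw [mem_filter]
        exact ⟨mem_univ _, by omega⟩
      · rw [mem_inter]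
        refine ⟨hu, ?_⟩
        simp only [SV]
        rw [mem_filter]
        exact ⟨hAS hu, fun v hv => (mem_filter.1 hv).2⟩
  have hone : ∀ V ∈ (univ : Finset (Finset (Fin b))).filter (fun V => b + 2 ≤ 2 * V.card),
      ((A ∩ SV V).card : ℝ) ≤ δ / 2 ^ (b + 1) * S.card := by
    intro V hV
    rw [mem_filter] at hV
    have h1 := hm V hV.2 n (hmn V) (SV V) (A ∩ SV V) (by
      intro σ u hu
      simp only [SV] at hu ⊢
      rw [mem_filter] at hu ⊢
      refine ⟨hS σ u hu.1, fun v hv => ?_⟩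
      rw [cnt_comp]
      exact hu.2 v hv) (fun u hu v hv => by
        simp only [SV] at hu
        exact (mem_filter.1 hu).2 v hv) inter_subset_right (fun u hu v hv w hw =>
          hA u (mem_of_mem_inter_left hu) v (mem_of_mem_inter_left hv) w (mem_of_mem_inter_left hw))
    refine h1.trans ?_
    apply mul_le_mul_of_nonneg_left _ hδ1.le
    exact_mod_cast card_le_card (filter_subset _ _)
  have hFewc : (Few.card : ℝ) ≤ δ / 2 * S.card := by
    calc (Few.card : ℝ) ≤ 2 ^ b * (h + ε / 2) ^ n := hfew n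
      _ ≤ δ / 2 * (h + ε) ^ n := hn₁ n (by omega)
      _ ≤ _ := mul_le_mul_of_nonneg_left hSc (by positivity)
  have hnum : (((univ : Finset (Finset (Fin b))).filter (fun V => b + 2 ≤ 2 * V.card)).card : ℝ) ≤ 2 ^ b := by
    have h1 : ((univ : Finset (Finset (Fin b))).filter (fun V => b + 2 ≤ 2 * V.card)).card ≤ 2 ^ b := by
      refine (card_filter_le _ _).trans ?_
      rw [card_univ, Fintype.card_finset, Fintype.card_fin]
    exact_mod_cast h1
  calc (A.card : ℝ) ≤ ((Few ∪ ((univ : Finset (Finset (Fin b))).filter (fun V => b + 2 ≤ 2 * V.card)).biUnion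
      (fun V => A ∩ SV V)).card : ℝ) := by exact_mod_cast card_le_card hcov
    _ ≤ (Few.card : ℝ) + ∑ V ∈ (univ : Finset (Finset (Fin b))).filter (fun V => b + 2 ≤ 2 * V.card),
        ((A ∩ SV V).card : ℝ) := by
        have h1 := card_union_le Few (((univ : Finset (Finset (Fin b))).filter (fun V => b + 2 ≤ 2 * V.card)).biUnion
          (fun V => A ∩ SV V))
        have h2 := card_biUnion_le (s := (univ : Finset (Finset (Fin b))).filter (fun V => b + 2 ≤ 2 * V.card))
          (t := fun V => A ∩ SV V)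
        have h3 := h1.trans (Nat.add_le_add_left h2 _)
        exact_mod_cast h3
    _ ≤ δ / 2 * S.card + ∑ _V ∈ (univ : Finset (Finset (Fin b))).filter (fun V => b + 2 ≤ 2 * V.card),
        δ / 2 ^ (b + 1) * S.card := add_le_add hFewc (sum_le_sum hone)
    _ = δ / 2 * S.card + ((univ : Finset (Finset (Fin b))).filter (fun V => b + 2 ≤ 2 * V.card)).card *
        (δ / 2 ^ (b + 1) * S.card) := by rw [sum_const, nsmul_eq_mul]
    _ ≤ δ / 2 * S.card + 2 ^ b * (δ / 2 ^ (b + 1) * S.card) := by gcongr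
    _ = δ * S.card := by
        rw [pow_succ]
        field_simp
        ring

/-- **Roth's theorem relative to invariant sets all of whose elements have more than `(b + 1) / 2` frequent letters.** -/
theorem relative_freq {b : ℕ} (hb : 2 ≤ b) {ε δ : ℝ} (hε : 0 < ε) (hδ : 0 < δ) : ∃ n₀ : ℕ, ∀ n : ℕ, n₀ ≤ n →
    ∀ S A : Finset (Fin n → Fin b), SymW S →
      (∀ u ∈ S, (b + 1) / 2 < (univ.filter (fun v => ε * n ≤ cnt u v)).card) → A ⊆ S → FreeW A →
      (A.card : ℝ) ≤ δ * S.card := by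
  classical
  have hδ1 : 0 < δ / 2 ^ b := by positivity
  have hV : ∀ V : Finset (Fin b), ∃ n₀ : ℕ, b + 2 ≤ 2 * V.card → ∀ n : ℕ, n₀ ≤ n →
      ∀ O A : Finset (Fin n → Fin b), SymW O → (∀ u ∈ O, ∀ v ∈ V, ε * n ≤ cnt u v) → A ⊆ O → FreeW A →
      (A.card : ℝ) ≤ δ / 2 ^ b * O.card := by
    intro V
    by_cases hV : b + 2 ≤ 2 * V.card
    · obtain ⟨n₀, h1⟩ := dense_letters hb V hV hε hδ1
      exact ⟨n₀, fun _ => h1⟩
    · exact ⟨0, fun h => absurd h hV⟩
  choose m hm using hV
  refine ⟨∑ V : Finset (Fin b), m V, ?_⟩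
  intro n hn S A hS hSf hAS hA
  have hmn : ∀ V : Finset (Fin b), m V ≤ n := by
    intro V
    have h1 : m V ≤ ∑ V : Finset (Fin b), m V := single_le_sum (f := m) (fun _ _ => Nat.zero_le _) (mem_univ V)
    omega
  let SV : Finset (Fin b) → Finset (Fin n → Fin b) := fun V => S.filter (fun u => ∀ v ∈ V, ε * n ≤ cnt u v)
  have hcov : A ⊆ ((univ : Finset (Finset (Fin b))).filter (fun V => b + 2 ≤ 2 * V.card)).biUnion
      (fun V => A ∩ SV V) := by
    intro u hu
    have h1 := hSf u (hAS hu)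
    rw [mem_biUnion]
    refine ⟨univ.filter (fun v => ε * n ≤ cnt u v), ?_, ?_⟩
    · rw [mem_filter]
      exact ⟨mem_univ _, by omega⟩
    · rw [mem_inter]
      refine ⟨hu, ?_⟩
      simp only [SV]
      rw [mem_filter]
      exact ⟨hAS hu, fun v hv => (mem_filter.1 hv).2⟩
  have hone : ∀ V ∈ (univ : Finset (Finset (Fin b))).filter (fun V => b + 2 ≤ 2 * V.card),
      ((A ∩ SV V).card : ℝ) ≤ δ / 2 ^ b * S.card := by
    intro V hV
    rw [mem_filter] at hV
    have h1 := hm V hV.2 n (hmn V) (SV V) (A ∩ SV V) (by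
      intro σ u hu
      simp only [SV] at hu ⊢
      rw [mem_filter] at hu ⊢
      refine ⟨hS σ u hu.1, fun v hv => ?_⟩
      rw [cnt_comp]
      exact hu.2 v hv) (fun u hu v hv => by
        simp only [SV] at hu
        exact (mem_filter.1 hu).2 v hv) inter_subset_right (fun u hu v hv w hw =>
          hA u (mem_of_mem_inter_left hu) v (mem_of_mem_inter_left hv) w (mem_of_mem_inter_left hw))
    refine h1.trans ?_
    apply mul_le_mul_of_nonneg_left _ hδ1.le
    exact_mod_cast card_le_card (filter_subset _ _)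
  have hnum : (((univ : Finset (Finset (Fin b))).filter (fun V => b + 2 ≤ 2 * V.card)).card : ℝ) ≤ 2 ^ b := by
    have h1 : ((univ : Finset (Finset (Fin b))).filter (fun V => b + 2 ≤ 2 * V.card)).card ≤ 2 ^ b := by
      refine (card_filter_le _ _).trans ?_
      rw [card_univ, Fintype.card_finset, Fintype.card_fin]
    exact_mod_cast h1
  calc (A.card : ℝ) ≤ (((univ : Finset (Finset (Fin b))).filter (fun V => b + 2 ≤ 2 * V.card)).biUnion
      (fun V => A ∩ SV V)).card := by exact_mod_cast card_le_card hcov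
    _ ≤ ∑ V ∈ (univ : Finset (Finset (Fin b))).filter (fun V => b + 2 ≤ 2 * V.card),
        ((A ∩ SV V).card : ℝ) := by
        exact_mod_cast card_biUnion_le
    _ ≤ ∑ _V ∈ (univ : Finset (Finset (Fin b))).filter (fun V => b + 2 ≤ 2 * V.card),
        δ / 2 ^ b * S.card := sum_le_sum hone
    _ = ((univ : Finset (Finset (Fin b))).filter (fun V => b + 2 ≤ 2 * V.card)).card *
        (δ / 2 ^ b * S.card) := by rw [sum_const, nsmul_eq_mul]
    _ ≤ 2 ^ b * (δ / 2 ^ b * S.card) := by gcongr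
    _ = δ * S.card := by
        field_simp

end Pool.Agent.L5helper7.DS
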