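import Pool.Agent.L5helper7.DS.Pat
import Pool.Agent.H287R3.RA.APb

/-!
# Sets of integers without three-term progressions that are invariant under permutations of the digits: upper bound
-/

set_option autoImplicit false

namespace Pool.Agent.L5helper7.DS

open Finset Equiv

/-- the number with the digits `u` -/
def val {b n : ℕ} (u : Fin n → Fin b) : ℕ := ∑ i, (u i : ℕ) * b ^ (i : ℕ)

/-- no nontrivial progression -/
def FreeW {b n : ℕ} (B : Finset (Fin n → Fin b)) : Prop :=
  ∀ u ∈ B, ∀ v ∈ B, ∀ w ∈ B, val u + val w = 2 * val v → u = w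

/-- invariant under permutations of the positions -/
def SymW {b n : ℕ} (B : Finset (Fin n → Fin b)) : Prop :=
  ∀ (σ : Perm (Fin n)), ∀ u ∈ B, (fun i => u (σ i)) ∈ B

theorem letters {b : ℕ} (hb : 2 ≤ b) (V : Finset (Fin b)) (hV : b + 2 ≤ 2 * V.card) : ∃ K : ℕ, ∀ (n : ℕ)
    (B : Finset (Fin n → Fin b)), FreeW B → SymW B → ∀ u ∈ B, ∃ v ∈ V,
      (univ.filter (fun i => u i = v)).card < K := by
  classical
  have hinjc : Function.Injective (fun v : Fin b => ((v : ℕ) : ℤ)) := by
    intro a c h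
    simp only [Nat.cast_inj] at h
    exact Fin.ext h
  set D : Finset ℤ := V.image (fun v : Fin b => ((v : ℕ) : ℤ)) with hDdef
  have hDc : D.card = V.card := card_image_of_injective _ hinjc
  have hD : D ⊆ Ico 0 (b : ℤ) := by
    intro x hx
    rw [hDdef, mem_image] at hx
    obtain ⟨v, -, rfl⟩ := hx
    rw [mem_Ico]
    exact ⟨by positivity, by exact_mod_cast v.2⟩
  obtain ⟨N, x, y, z, c, hc0, hcN, htr, hcx, hcz, k₀, hk₀⟩ := pattern (b := (b : ℤ)) (D := D)
    (by exact_mod_cast hb) hD (by rw [hDc]; exact_mod_cast hV)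
  have hlift : ∀ t ∈ D, ∃ v ∈ V, ((v : ℕ) : ℤ) = t := by
    intro t ht
    rw [hDdef, mem_image] at ht
    exact ht
  choose X hXV hX using fun k => hlift (x k) (htr k).1
  choose Y hYV hY using fun k => hlift (y k) (htr k).2.1
  choose Z hZV hZ using fun k => hlift (z k) (htr k).2.2.1
  have hcount : ∀ (p q : Fin N → ℤ) (P Q : Fin N → Fin b), (∀ k, ((P k : ℕ) : ℤ) = p k) →
      (∀ k, ((Q k : ℕ) : ℤ) = q k) → (∀ v, Fintype.card {k // p k = v} = Fintype.card {k // q k = v}) →
      ∀ v, Fintype.card {k // P k = v} = Fintype.card {k // Q k = v} := by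
    intro p q P Q hP hQ h v
    have e : ∀ (p' : Fin N → ℤ) (P' : Fin N → Fin b), (∀ k, ((P' k : ℕ) : ℤ) = p' k) →
        Fintype.card {k // P' k = v} = Fintype.card {k // p' k = ((v : ℕ) : ℤ)} := by
      intro p' P' hP'
      refine Fintype.card_congr (Equiv.subtypeEquivRight fun k => ?_)
      rw [← hP' k]
      exact ⟨fun h => by rw [h], fun h => hinjc h⟩
    rw [e p P hP, e q Q hQ, h]
  obtain ⟨σ, hσ⟩ := Pool.Agent.H287R3.RA.AP.exists_perm X Y (hcount x y X Y hX hY hcx)
  obtain ⟨σ', hσ'⟩ := Pool.Agent.H287R3.RA.AP.exists_perm Z Y (hcount z y Z Y hZ hY hcz)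
  refine ⟨N, ?_⟩
  intro n B hB hS u hu
  by_contra hcon
  push Not at hcon
  -- an embedding with `u (e₀ k) = Y k`
  have hemb : ∀ v : V, Nonempty ({k // Y k = v} ↪ {c : Fin n // u c = v}) := by
    intro v
    rw [Function.Embedding.nonempty_iff_card_le, Fintype.card_subtype, Fintype.card_subtype]
    refine le_trans ?_ (hcon v v.2)
    refine (card_le_univ _).trans ?_
    rw [Fintype.card_fin]
  have ev : ∀ v : V, {k // Y k = v} ↪ {c : Fin n // u c = v} := fun v => (hemb v).some
  let e₀ : Fin N → Fin n := fun k => (ev ⟨Y k, hYV k⟩ ⟨k, rfl⟩ : Fin n)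
  have he₀ : ∀ (k : Fin N) (v : V) (h : Y k = v), e₀ k = (ev v ⟨k, h⟩ : Fin n) := by
    rintro k ⟨v, hv⟩ h
    simp only at h
    subst h
    rfl
  have hue : ∀ k, u (e₀ k) = Y k := fun k => (ev ⟨Y k, hYV k⟩ ⟨k, rfl⟩).2
  have hinj : Function.Injective e₀ := by
    intro i j hij
    have h1 : Y i = Y j := by rw [← hue i, ← hue j, hij]
    have h2 := he₀ i ⟨Y j, hYV j⟩ h1
    have h3 := he₀ j ⟨Y j, hYV j⟩ rfl
    rw [h2, h3] at hij
    have h4 := (ev ⟨Y j, hYV j⟩).injective (Subtype.ext hij)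
    exact congrArg Subtype.val h4
  have hNn : N ≤ n := by
    have := Fintype.card_le_of_injective e₀ hinj
    rwa [Fintype.card_fin, Fintype.card_fin] at this
  let a : Fin N ↪ Fin n := Fin.castLEEmb hNn
  let eq : {i // i ∈ Set.range a} ≃ {i // i ∈ Set.range e₀} :=
    (Equiv.ofInjective a a.injective).symm.trans (Equiv.ofInjective e₀ hinj)
  let τ : Perm (Fin n) := eq.extendSubtype
  have hτ : ∀ k, τ (a k) = e₀ k := by
    intro k
    have h1 : τ (a k) = eq ⟨a k, ⟨k, rfl⟩⟩ := Equiv.extendSubtype_apply_of_mem _ _ _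
    rw [h1]
    simp only [eq, Equiv.trans_apply]
    have h2 : (Equiv.ofInjective a a.injective).symm ⟨a k, ⟨k, rfl⟩⟩ = k := by
      rw [Equiv.symm_apply_eq]
      rfl
    rw [h2]
    rfl
  have hu' := hS τ u hu
  set u' : Fin n → Fin b := fun i => u (τ i) with hu'def
  have hu'a : ∀ k, u' (a k) = Y k := fun k => by
    rw [hu'def]
    simp only
    rw [hτ, hue]
  have hx := hS (σ.viaEmbedding a) u' hu'
  have hz := hS (σ'.viaEmbedding a) u' hu'
  set x' : Fin n → Fin b := fun i => u' (σ.viaEmbedding a i) with hx'def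
  set z' : Fin n → Fin b := fun i => u' (σ'.viaEmbedding a i) with hz'def
  have hxa : ∀ k, x' (a k) = X k := by
    intro k
    simp only [hx'def]
    rw [Equiv.Perm.viaEmbedding_apply, hu'a, hσ]
  have hza : ∀ k, z' (a k) = Z k := by
    intro k
    simp only [hz'def]
    rw [Equiv.Perm.viaEmbedding_apply, hu'a, hσ']
  have hxo : ∀ i, i ∉ Set.range a → x' i = u' i := by
    intro i hi
    simp only [hx'def]
    rw [Equiv.Perm.viaEmbedding_apply_of_notMem _ _ _ hi]
  have hzo : ∀ i, i ∉ Set.range a → z' i = u' i := by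
    intro i hi
    simp only [hz'def]
    rw [Equiv.Perm.viaEmbedding_apply_of_notMem _ _ _ hi]
  -- the sum telescopes
  let G : ℕ → ℤ := fun i => if i < N then (b : ℤ) ^ (i + 1) * c (i + 1) - (b : ℤ) ^ i * c i else 0
  have hG : ∀ i : Fin n, (((x' i : ℕ) : ℤ) + ((z' i : ℕ) : ℤ) - 2 * ((u' i : ℕ) : ℤ)) * (b : ℤ) ^ (i : ℕ) = G i := by
    intro i
    by_cases h : (i : ℕ) < N
    · have hi : i = a ⟨i, h⟩ := Fin.ext rfl
      have h1 := (htr ⟨i, h⟩).2.2.2
      have h2 : x' i = X ⟨i, h⟩ := by conv_lhs => rw [hi, hxa]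
      have h3 : z' i = Z ⟨i, h⟩ := by conv_lhs => rw [hi, hza]
      have h4 : u' i = Y ⟨i, h⟩ := by conv_lhs => rw [hi, hu'a]
      simp only [G]
      rw [if_pos h, h2, h3, h4, hX, hY, hZ]
      have h5 : x ⟨i, h⟩ + z ⟨i, h⟩ - 2 * y ⟨i, h⟩ = b * c ((i : ℕ) + 1) - c i := by
        simp only at h1
        linarith
      rw [h5, pow_succ]
      ring
    · have hi : i ∉ Set.range a := by
        rintro ⟨k, rfl⟩
        exact h k.2
      simp only [G]
      rw [if_neg h, hxo i hi, hzo i hi]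
      ring
  have hsum : ∑ i : Fin n, (((x' i : ℕ) : ℤ) + ((z' i : ℕ) : ℤ) - 2 * ((u' i : ℕ) : ℤ)) * (b : ℤ) ^ (i : ℕ) = 0 := by
    rw [sum_congr rfl (fun i _ => hG i), Fin.sum_univ_eq_sum_range G n]
    have h1 : ∑ i ∈ range n, G i = ∑ i ∈ range N, ((b : ℤ) ^ (i + 1) * c (i + 1) - (b : ℤ) ^ i * c i) := by
      rw [← Finset.sum_subset (Finset.range_subset_range.2 hNn) (f := G)]
      · refine sum_congr rfl fun i hi => ?_
        simp only [G]
        rw [if_pos (mem_range.1 hi)]
      · intro i _ hi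
        simp only [G]
        rw [if_neg (by rwa [mem_range] at hi)]
    rw [h1, Finset.sum_range_sub (fun i => (b : ℤ) ^ i * c i), hc0, hcN]
    ring
  have hval : val x' + val z' = 2 * val u' := by
    have h1 : ((val x' + val z' : ℕ) : ℤ) = ((2 * val u' : ℕ) : ℤ) := by
      unfold val
      push_cast
      rw [mul_sum, ← sum_add_distrib, ← sub_eq_zero, ← sum_sub_distrib]
      rw [← hsum]
      refine sum_congr rfl fun i _ => ?_
      ring
    exact_mod_cast h1
  have h3 := hB x' hx u' hu' z' hz hval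
  apply hk₀
  rw [← hX, ← hZ, ← hxa, ← hza, h3]

theorem card_few {b n K h : ℕ} (hn : 1 ≤ n) (hh : 1 ≤ h) (V : Finset (Fin b)) (hV : V.card = h) :
    (univ.filter (fun u : Fin n → Fin b => ∀ v, v ∉ V →
      (univ.filter (fun i => u i = v)).card < K)).card ≤ (n * b) ^ (b * K) * h ^ n := by
  classical
  set S := univ.filter (fun u : Fin n → Fin b => ∀ v, v ∉ V →
      (univ.filter (fun i => u i = v)).card < K) with hS
  have hVne : V.Nonempty := by
    rw [← Finset.card_pos]
    omega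
  obtain ⟨v₀, hv₀⟩ := hVne
  let Φ : (Fin (b * K) → Fin n × Fin b) × (Fin n → V) → (Fin n → Fin b) := fun q i =>
    if h : ∃ j, (q.1 j).1 = i then (q.1 h.choose).2 else q.2 i
  have hsub : S ⊆ univ.image Φ := by
    intro u hu
    rw [hS, Finset.mem_filter] at hu
    set T : Finset (Fin n) := univ.filter (fun i => u i ∉ V) with hT
    have hTc : T.card ≤ b * K := by
      have h1 : T ⊆ (univ : Finset (Fin b)).biUnion
          (fun v => if v ∉ V then univ.filter (fun i => u i = v) else ∅) := by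
        intro i hi
        rw [hT, Finset.mem_filter] at hi
        rw [Finset.mem_biUnion]
        refine ⟨u i, Finset.mem_univ _, ?_⟩
        rw [if_pos hi.2, Finset.mem_filter]
        exact ⟨Finset.mem_univ _, rfl⟩
      calc T.card ≤ _ := Finset.card_le_card h1
        _ ≤ ∑ v : Fin b, (if v ∉ V then univ.filter (fun i => u i = v) else ∅).card :=
          Finset.card_biUnion_le
        _ ≤ ∑ _v : Fin b, K := by
          apply Finset.sum_le_sum
          intro v _
          by_cases hv : v ∉ V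
          · rw [if_pos hv]
            exact (hu.2 v hv).le
          · rw [if_neg hv, Finset.card_empty]
            exact Nat.zero_le _
        _ = b * K := by rw [Finset.sum_const, Finset.card_univ, Fintype.card_fin, smul_eq_mul]
    obtain ⟨l, hl⟩ := Pool.Agent.H287R3.RA.AP.exists_cover hn T hTc
    rw [Finset.mem_image]
    refine ⟨(fun j => (l j, u (l j)), fun i => if h : u i ∈ V then ⟨u i, h⟩ else ⟨v₀, hv₀⟩),
      Finset.mem_univ _, ?_⟩
    funext i
    simp only [Φ]
    by_cases hex : ∃ j, l j = i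
    · rw [dif_pos hex, hex.choose_spec]
    · rw [dif_neg hex]
      have hi : u i ∈ V := by
        by_contra hcon
        exact hex (hl i (by rw [hT, Finset.mem_filter]; exact ⟨Finset.mem_univ _, hcon⟩))
      rw [dif_pos hi]
  calc S.card ≤ _ := Finset.card_le_card hsub
    _ ≤ _ := Finset.card_image_le
    _ = (n * b) ^ (b * K) * h ^ n := by
      rw [Finset.card_univ, Fintype.card_prod, Fintype.card_fun, Fintype.card_fun,
        Fintype.card_prod, Fintype.card_fin, Fintype.card_fin, Fintype.card_fin, Fintype.card_coe, hV]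

/-- the structure: all but boundedly many digits are in a set of `(b + 1) / 2` digits -/
theorem cover_letters {b : ℕ} (hb : 2 ≤ b) : ∃ K : ℕ, ∀ (n : ℕ) (B : Finset (Fin n → Fin b)),
    FreeW B → SymW B → ∀ u ∈ B, ∃ V ∈ (univ : Finset (Fin b)).powersetCard ((b + 1) / 2),
      ∀ v, v ∉ V → (univ.filter (fun i => u i = v)).card < K := by
  classical
  obtain ⟨h, hh⟩ : ∃ h, h = (b + 1) / 2 := ⟨_, rfl⟩
  rw [← hh]
  have hK : ∀ V : Finset (Fin b), ∃ K : ℕ, b + 2 ≤ 2 * V.card → ∀ (n : ℕ)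
      (B : Finset (Fin n → Fin b)), FreeW B → SymW B → ∀ u ∈ B, ∃ v ∈ V,
      (univ.filter (fun i => u i = v)).card < K := by
    intro V
    by_cases hV : b + 2 ≤ 2 * V.card
    · obtain ⟨K, hK⟩ := letters hb V hV
      exact ⟨K, fun _ => hK⟩
    · exact ⟨0, fun h => absurd h hV⟩
  choose K₀ hK₀ using hK
  set K := ∑ V : Finset (Fin b), K₀ V with hKdef
  refine ⟨K, ?_⟩
  intro n B hB hS u hu
  set Vu : Finset (Fin b) := univ.filter (fun v => K ≤ (univ.filter (fun i => u i = v)).card)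
    with hVu
  have hVuc : Vu.card ≤ h := by
    by_contra hlt
    push Not at hlt
    obtain ⟨v, hv, hlt2⟩ := hK₀ Vu (by omega) n B hB hS u hu
    rw [hVu, Finset.mem_filter] at hv
    have h1 : K₀ Vu ≤ K := Finset.single_le_sum (f := K₀) (fun _ _ => Nat.zero_le _)
      (Finset.mem_univ Vu)
    omega
  obtain ⟨V, hV1, hV2, hV3⟩ := Finset.exists_subsuperset_card_eq (Finset.subset_univ Vu) hVuc
    (by rw [Finset.card_univ, Fintype.card_fin]; omega)
  refine ⟨V, by rw [Finset.mem_powersetCard]; exact ⟨hV2, hV3⟩, ?_⟩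
  intro v hv
  by_contra hcon
  push Not at hcon
  exact hv (hV1 (by rw [hVu, Finset.mem_filter]; exact ⟨Finset.mem_univ _, hcon⟩))

/-- the structure, second form -/
theorem cover {b : ℕ} (hb : 2 ≤ b) : ∃ K : ℕ, ∀ (n : ℕ) (B : Finset (Fin n → Fin b)),
    FreeW B → SymW B → ∀ u ∈ B, ∃ V : Finset (Fin b), V.card = (b + 1) / 2 ∧
      (univ.filter (fun i => u i ∉ V)).card ≤ b * K := by
  classical
  obtain ⟨K, hK⟩ := cover_letters hb
  refine ⟨K, fun n B hB hS u hu => ?_⟩
  obtain ⟨V, hV, hV2⟩ := hK n B hB hS u hu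
  refine ⟨V, (Finset.mem_powersetCard.1 hV).2, ?_⟩
  have h1 : univ.filter (fun i => u i ∉ V) ⊆ (univ : Finset (Fin b)).biUnion
      (fun v => if v ∉ V then univ.filter (fun i => u i = v) else ∅) := by
    intro i hi
    rw [Finset.mem_filter] at hi
    rw [Finset.mem_biUnion]
    refine ⟨u i, Finset.mem_univ _, ?_⟩
    rw [if_pos hi.2, Finset.mem_filter]
    exact ⟨Finset.mem_univ _, rfl⟩
  calc (univ.filter (fun i => u i ∉ V)).card ≤ _ := Finset.card_le_card h1
    _ ≤ ∑ v : Fin b, (if v ∉ V then univ.filter (fun i => u i = v) else ∅).card :=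
      Finset.card_biUnion_le
    _ ≤ ∑ _v : Fin b, K := by
      apply Finset.sum_le_sum
      intro v _
      by_cases hv : v ∉ V
      · rw [if_pos hv]
        exact (hV2 v hv).le
      · rw [if_neg hv, Finset.card_empty]
        exact Nat.zero_le _
    _ = b * K := by rw [Finset.sum_const, Finset.card_univ, Fintype.card_fin, smul_eq_mul]

/-- the upper bound -/
theorem upper {b : ℕ} (hb : 2 ≤ b) : ∃ C : ℕ, ∀ (n : ℕ) (B : Finset (Fin n → Fin b)),
    1 ≤ n → FreeW B → SymW B → B.card ≤ C * n ^ C * ((b + 1) / 2) ^ n := by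
  classical
  obtain ⟨K, hK⟩ := cover_letters hb
  obtain ⟨h, hh⟩ : ∃ h, h = (b + 1) / 2 := ⟨_, rfl⟩
  rw [← hh] at hK ⊢
  refine ⟨2 ^ b * b ^ (b * K) + b * K, ?_⟩
  intro n B hn hB hS
  have hcover := hK n B hB hS
  have hsub : B ⊆ ((univ : Finset (Fin b)).powersetCard h).biUnion
      (fun V => univ.filter (fun u : Fin n → Fin b => ∀ v, v ∉ V →
      (univ.filter (fun i => u i = v)).card < K)) := by
    intro u hu
    obtain ⟨V, hV, hV2⟩ := hcover u hu
    rw [Finset.mem_biUnion]
    exact ⟨V, hV, by rw [Finset.mem_filter]; exact ⟨Finset.mem_univ _, hV2⟩⟩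
  have hpc : ((univ : Finset (Fin b)).powersetCard h).card ≤ 2 ^ b := by
    rw [Finset.card_powersetCard, Finset.card_univ, Fintype.card_fin]
    exact Nat.choose_le_two_pow b h
  have h1 : B.card ≤ 2 ^ b * ((n * b) ^ (b * K) * h ^ n) := by
    calc B.card ≤ _ := Finset.card_le_card hsub
      _ ≤ ∑ V ∈ (univ : Finset (Fin b)).powersetCard h,
          (univ.filter (fun u : Fin n → Fin b => ∀ v, v ∉ V →
            (univ.filter (fun i => u i = v)).card < K)).card := Finset.card_biUnion_le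
      _ ≤ ∑ _V ∈ (univ : Finset (Fin b)).powersetCard h, (n * b) ^ (b * K) * h ^ n := by
        apply Finset.sum_le_sum
        intro V hV
        rw [Finset.mem_powersetCard] at hV
        exact card_few hn (by omega) V hV.2
      _ ≤ _ := by
        rw [Finset.sum_const, smul_eq_mul]
        exact Nat.mul_le_mul_right _ hpc
  have h2 : n ^ (b * K) ≤ n ^ (2 ^ b * b ^ (b * K) + b * K) :=
    Nat.pow_le_pow_right hn (Nat.le_add_left _ _)
  calc B.card ≤ 2 ^ b * ((n * b) ^ (b * K) * h ^ n) := h1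
    _ = (2 ^ b * b ^ (b * K)) * n ^ (b * K) * h ^ n := by rw [mul_pow]; ring
    _ ≤ (2 ^ b * b ^ (b * K) + b * K) * n ^ (2 ^ b * b ^ (b * K) + b * K) * h ^ n :=
      Nat.mul_le_mul_right _ (Nat.mul_le_mul (Nat.le_add_right _ _) h2)

end Pool.Agent.L5helper7.DS
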