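import Pool.Agent.L5helper7.DS.Dual
import Pool.Agent.N180.CfA

/-!
# Balanced circulations in the carry graph of `x + z = 2 y` over a set of more than half of the digits
-/

set_option autoImplicit false

namespace Pool.Agent.L5helper7.DS

open Finset

/-- a transition `(x, y, z, e, e')` -/
abbrev Tr : Type := ℤ × ℤ × ℤ × ℤ × ℤ

/-- the transitions with digits in `D` -/
def TT (b : ℤ) (D : Finset ℤ) : Finset Tr :=
  (D ×ˢ D ×ˢ D ×ˢ ({-1, 0, 1} : Finset ℤ) ×ˢ ({-1, 0, 1} : Finset ℤ)).filter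
    (fun t => t.1 + t.2.2.1 + t.2.2.2.1 = 2 * t.2.1 + b * t.2.2.2.2)

theorem mem_TT {b : ℤ} {D : Finset ℤ} {x y z e e' : ℤ} : (x, y, z, e, e') ∈ TT b D ↔
    x ∈ D ∧ y ∈ D ∧ z ∈ D ∧ (e = -1 ∨ e = 0 ∨ e = 1) ∧ (e' = -1 ∨ e' = 0 ∨ e' = 1) ∧
      x + z + e = 2 * y + b * e' := by
  unfold TT
  simp only [mem_filter, mem_product, mem_insert, mem_singleton]
  tauto

/-- the linear form of a transition -/
def Af (t : Tr) : ((ℤ → ℚ) × (ℤ → ℚ) × (ℤ → ℚ)) →ₗ[ℚ] ℚ where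
  toFun F := F.1 t.1 + F.2.1 t.2.2.1 + F.2.2 t.2.2.2.1 - F.1 t.2.1 - F.2.1 t.2.1 - F.2.2 t.2.2.2.2
  map_add' F G := by
    simp only [Prod.fst_add, Prod.snd_add, Pi.add_apply]
    ring
  map_smul' c F := by
    simp only [Prod.smul_fst, Prod.smul_snd, Pi.smul_apply, smul_eq_mul, RingHom.id_apply]
    ring

theorem Af_apply (t : Tr) (F : (ℤ → ℚ) × (ℤ → ℚ) × (ℤ → ℚ)) : Af t F =
    F.1 t.1 + F.2.1 t.2.2.1 + F.2.2 t.2.2.2.1 - F.1 t.2.1 - F.2.1 t.2.1 - F.2.2 t.2.2.2.2 := rfl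

theorem feas_of {b : ℤ} {D : Finset ℤ} {F : (ℤ → ℚ) × (ℤ → ℚ) × (ℤ → ℚ)} (h : ∀ t ∈ TT b D, Af t F ≤ 0) :
    Feas b D F.1 F.2.1 F.2.2 := by
  intro x hx y hy z hz e e' he he' heq
  have h1 := h (x, y, z, e, e') (mem_TT.2 ⟨hx, hy, hz, he, he', heq⟩)
  rw [Af_apply] at h1
  simp only at h1
  linarith

/-- one tight transition is in a circulation -/
theorem exists_one {b : ℤ} {D : Finset ℤ} {t₁ : Tr} (ht₁ : t₁ ∈ TT b D)
    (htight : ∀ F : (ℤ → ℚ) × (ℤ → ℚ) × (ℤ → ℚ), (∀ t ∈ TT b D, Af t F ≤ 0) → Af t₁ F = 0) :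
    ∃ W : Tr → ℚ, (∀ t, 0 ≤ W t) ∧ 1 ≤ W t₁ ∧ ∑ t ∈ TT b D, W t • Af t = 0 := by
  classical
  obtain ⟨c, hc, hcb⟩ := Pool.Agent.N180.Cf.farkas (TT b D) Af (-Af t₁) (fun F hF => by
    rw [LinearMap.neg_apply, htight F hF, neg_zero])
  refine ⟨fun t => c t + if t = t₁ then 1 else 0, fun t => ?_, ?_, ?_⟩
  · have := hc t
    dsimp only
    split_ifs <;> linarith
  · have := hc t₁
    simp only [if_true]
    linarith
  · simp only [add_smul, ite_smul, one_smul, zero_smul]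
    rw [sum_add_distrib, ← hcb, sum_ite_eq', if_pos ht₁, neg_add_cancel]

/-- common denominators -/
theorem exists_den {ι : Type} (s : Finset ι) (W : ι → ℚ) (hW : ∀ i, 0 ≤ W i) :
    ∃ N : ℕ, 0 < N ∧ ∃ w : ι → ℕ, ∀ i ∈ s, (w i : ℚ) = W i * N := by
  classical
  induction s using Finset.induction_on with
  | empty => exact ⟨1, one_pos, fun _ => 0, fun i hi => absurd hi (notMem_empty i)⟩
  | insert a s ha ih =>
    obtain ⟨N, hN, w, hw⟩ := ih
    have hden : (0 : ℚ) < (W a).den := by exact_mod_cast (W a).den_pos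
    have hnum : 0 ≤ (W a).num := Rat.num_nonneg.2 (hW a)
    have e1 : (((W a).num.toNat : ℕ) : ℚ) = W a * (W a).den := by
      have h1 : (((W a).num.toNat : ℕ) : ℤ) = (W a).num := Int.toNat_of_nonneg hnum
      have h2 : (((W a).num.toNat : ℕ) : ℚ) = ((W a).num : ℚ) := by exact_mod_cast congrArg (Int.cast : ℤ → ℚ) h1
      rw [h2, Rat.mul_den_eq_num]
    refine ⟨N * (W a).den, Nat.mul_pos hN (W a).den_pos,
      fun i => if i = a then (W a).num.toNat * N else w i * (W a).den, fun i hi => ?_⟩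
    dsimp only
    by_cases hia : i = a
    · subst hia
      rw [if_pos rfl]
      push_cast
      rw [e1]
      ring
    · rw [if_neg hia]
      have h2 := hw i ((mem_insert.1 hi).resolve_left hia)
      push_cast
      rw [h2]
      ring

/-- **Balanced circulations.** -/
theorem exists_weights {b : ℤ} {D : Finset ℤ} (hb : 2 ≤ b) (hD : D ⊆ Ico 0 b)
    (hc : b + 2 ≤ 2 * (D.card : ℤ)) : ∃ (w : Tr → ℕ) (u : ℤ), u ∈ D ∧ u + 1 ∈ D ∧
      0 < w (u, u + 1, u + 1, 1, 0) ∧ 0 < w (u, u, u + 1, -1, 0) ∧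
      (∀ v : ℤ, ∑ t ∈ TT b D, w t * (if t.1 = v then 1 else 0) =
        ∑ t ∈ TT b D, w t * (if t.2.1 = v then 1 else 0)) ∧
      (∀ v : ℤ, ∑ t ∈ TT b D, w t * (if t.2.2.1 = v then 1 else 0) =
        ∑ t ∈ TT b D, w t * (if t.2.1 = v then 1 else 0)) ∧
      (∀ v : ℤ, ∑ t ∈ TT b D, w t * (if t.2.2.2.1 = v then 1 else 0) =
        ∑ t ∈ TT b D, w t * (if t.2.2.2.2 = v then 1 else 0)) := by
  classical
  -- two neighbours
  obtain ⟨u, hu, hu1⟩ : ∃ u, u ∈ D ∧ u + 1 ∈ D := by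
    by_contra hcon
    push Not at hcon
    have h1 : Disjoint D (D.image (fun x => x + 1)) := by
      rw [disjoint_left]
      intro x hx hx2
      rw [mem_image] at hx2
      obtain ⟨a, ha, rfl⟩ := hx2
      exact hcon a ha hx
    have h2 : D ∪ D.image (fun x => x + 1) ⊆ Ico 0 (b + 1) := by
      intro x hx
      rw [mem_union, mem_image] at hx
      rw [mem_Ico]
      rcases hx with hx | ⟨a, ha, rfl⟩
      · have := mem_Ico.1 (hD hx)
        omega
      · have := mem_Ico.1 (hD ha)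
        omega
    have h3 := card_le_card h2
    rw [card_union_of_disjoint h1, card_image_of_injective _ (fun x y h => by simpa using h), Int.card_Ico] at h3
    omega
  have ht1 : (u, u + 1, u + 1, (1 : ℤ), (0 : ℤ)) ∈ TT b D :=
    mem_TT.2 ⟨hu, hu1, hu1, by omega, by omega, by ring⟩
  have ht2 : (u, u, u + 1, (-1 : ℤ), (0 : ℤ)) ∈ TT b D :=
    mem_TT.2 ⟨hu, hu, hu1, by omega, by omega, by ring⟩
  obtain ⟨W₁, a1, a2, a3⟩ := exists_one ht1 (fun F hF => by
    obtain ⟨k1, k2, k3, k4⟩ := tight hb hD hc (feas_of hF) hu hu1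
    rw [Af_apply]
    simp only
    rw [k1, k4]
    ring)
  obtain ⟨W₂, b1, b2, b3⟩ := exists_one ht2 (fun F hF => by
    obtain ⟨k1, k2, k3, k4⟩ := tight hb hD hc (feas_of hF) hu hu1
    rw [Af_apply]
    simp only
    rw [k2, k3]
    ring)
  obtain ⟨N, hN, w, hw⟩ := exists_den (TT b D) (fun t => W₁ t + W₂ t) (fun t => add_nonneg (a1 t) (b1 t))
  have hNq : (0 : ℚ) < N := by exact_mod_cast hN
  have htot : ∀ F : (ℤ → ℚ) × (ℤ → ℚ) × (ℤ → ℚ), ∑ t ∈ TT b D, (w t : ℚ) * Af t F = 0 := by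
    intro F
    have c1 := congrArg (fun L => L F) a3
    have c2 := congrArg (fun L => L F) b3
    simp only [LinearMap.sum_apply, LinearMap.smul_apply, smul_eq_mul, LinearMap.zero_apply] at c1 c2
    have : ∑ t ∈ TT b D, (w t : ℚ) * Af t F = N * (∑ t ∈ TT b D, W₁ t * Af t F + ∑ t ∈ TT b D, W₂ t * Af t F) := by
      rw [← sum_add_distrib, mul_sum]
      refine sum_congr rfl fun t ht => ?_
      rw [hw t ht]
      ring
    rw [this, c1, c2]
    ring
  have hcast : ∀ (p q : Tr → ℤ), (∀ v : ℤ, ∑ t ∈ TT b D, (w t : ℚ) * ((if p t = v then 1 else 0) -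
      (if q t = v then 1 else 0)) = 0) → ∀ v : ℤ, ∑ t ∈ TT b D, w t * (if p t = v then 1 else 0) =
        ∑ t ∈ TT b D, w t * (if q t = v then 1 else 0) := by
    intro p q h v
    have h1 := h v
    simp only [mul_sub] at h1
    rw [sum_sub_distrib, sub_eq_zero] at h1
    exact_mod_cast h1
  refine ⟨w, u, hu, hu1, ?_, ?_, hcast _ _ fun v => ?_, hcast _ _ fun v => ?_, hcast _ _ fun v => ?_⟩
  · have h1 := hw _ ht1
    have h2 := b1 (u, u + 1, u + 1, 1, 0)
    have h3 : (0 : ℚ) < w (u, u + 1, u + 1, 1, 0) := by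
      rw [h1]
      exact mul_pos (by linarith) hNq
    exact_mod_cast h3
  · have h1 := hw _ ht2
    have h2 := a1 (u, u, u + 1, -1, 0)
    have h3 : (0 : ℚ) < w (u, u, u + 1, -1, 0) := by
      rw [h1]
      exact mul_pos (by linarith) hNq
    exact_mod_cast h3
  · refine (sum_congr rfl fun t _ => ?_).trans (htot (fun x => if x = v then 1 else 0, 0, 0))
    rw [Af_apply]
    simp only [Pi.zero_apply]
    ring
  · refine (sum_congr rfl fun t _ => ?_).trans (htot (0, fun x => if x = v then 1 else 0, 0))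
    rw [Af_apply]
    simp only [Pi.zero_apply]
    ring
  · refine (sum_congr rfl fun t _ => ?_).trans (htot (0, 0, fun x => if x = v then 1 else 0))
    rw [Af_apply]
    simp only [Pi.zero_apply]
    ring

end Pool.Agent.L5helper7.DS
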